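import Mathlib

/-! Kronecker's theorem for integer matrices: a matrix in `GL(d, ℤ)` without eigenvalues of modulus
greater than one is quasi-unipotent. -/

set_option autoImplicit false

open Polynomial

namespace Pool.Agent.TH261.AB

theorem mahler_one {p : ℤ[X]} (hp : p.Monic) (h : ∀ z ∈ p.aroots ℂ, ‖z‖ ≤ 1) :
    (p.map (Int.castRingHom ℂ)).mahlerMeasure = 1 := by
  rw [mahlerMeasure_eq_leadingCoeff_mul_prod_roots]
  have h1 : (p.map (Int.castRingHom ℂ)).leadingCoeff = 1 := (hp.map _).leadingCoeff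
  rw [h1, norm_one, one_mul]
  refine Multiset.prod_eq_one fun x hx => ?_
  obtain ⟨z, hz, rfl⟩ := Multiset.mem_map.1 hx
  exact max_eq_left (h z hz)

theorem roots_unity {p : ℤ[X]} (hp : p.Monic) (h : ∀ z ∈ p.aroots ℂ, ‖z‖ ≤ 1) (s : Multiset ℂ)
    (hs : ∀ z ∈ s, z ∈ p.aroots ℂ ∧ z ≠ 0) : ∃ n : ℕ, 0 < n ∧ ∀ z ∈ s, z ^ n = 1 := by
  induction s using Multiset.induction_on with
  | empty => exact ⟨1, one_pos, by simp⟩
  | cons a s ih =>
    obtain ⟨n, hn, h1⟩ := ih fun z hz => hs z (Multiset.mem_cons_of_mem hz)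
    obtain ⟨ha, ha0⟩ := hs a (Multiset.mem_cons_self a s)
    obtain ⟨k, hk, h2⟩ := pow_eq_one_of_mahlerMeasure_eq_one (mahler_one hp h) ha0 ha
    refine ⟨n * k, Nat.mul_pos hn hk, fun z hz => ?_⟩
    rcases Multiset.mem_cons.1 hz with rfl | hz
    · rw [mul_comm, pow_mul, h2, one_pow]
    · rw [pow_mul, h1 z hz, one_pow]

theorem quasi_unipotent {d : ℕ} (M : Matrix (Fin d) (Fin d) ℤ) (hM : IsUnit M)
    (h : ∀ z ∈ spectrum ℂ (M.map (Int.castRingHom ℂ)), ‖z‖ ≤ 1) :
    ∃ m : ℕ, 0 < m ∧ ∃ k : ℕ, (M ^ m - 1) ^ k = 0 := by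
  set p : ℤ[X] := M.charpoly with hp
  have hpm : p.Monic := M.charpoly_monic
  have hmap : p.map (Int.castRingHom ℂ) = (M.map (Int.castRingHom ℂ)).charpoly := by
    rw [hp, Matrix.charpoly_map]
  have hroot : ∀ z ∈ p.aroots ℂ, ‖z‖ ≤ 1 := by
    intro z hz
    refine h z ?_
    rw [Matrix.mem_spectrum_iff_isRoot_charpoly, ← hmap]
    exact (mem_roots'.1 hz).2
  have hne : ∀ z ∈ p.aroots ℂ, z ≠ 0 := by
    rintro z hz rfl
    have h1 : (M.map (Int.castRingHom ℂ)).charpoly.IsRoot 0 := by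
      rw [← hmap]; exact (mem_roots'.1 hz).2
    rw [← Matrix.mem_spectrum_iff_isRoot_charpoly] at h1
    have h2 : IsUnit (M.map (Int.castRingHom ℂ)) := by
      have := hM.map (Int.castRingHom ℂ).mapMatrix
      exact this
    exact (spectrum.zero_notMem_iff ℂ).2 h2 h1
  obtain ⟨m, hm, h1⟩ := roots_unity hpm hroot (p.aroots ℂ) fun z hz => ⟨hz, hne z hz⟩
  refine ⟨m, hm, Multiset.card (p.aroots ℂ), ?_⟩
  -- the characteristic polynomial divides a power of `X ^ m - 1` over `ℂ`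
  have hdvd : p.map (Int.castRingHom ℂ) ∣ (X ^ m - 1 : ℂ[X]) ^ Multiset.card (p.aroots ℂ) := by
    have hs : p.map (Int.castRingHom ℂ) =
        ((p.map (Int.castRingHom ℂ)).roots.map fun a => X - C a).prod := by
      have := IsAlgClosed.splits (p.map (Int.castRingHom ℂ))
      exact (this.eq_prod_roots_of_monic (hpm.map _))
    rw [hs]
    have key : ∀ s : Multiset ℂ, (∀ z ∈ s, z ^ m = 1) →
        (s.map fun a => X - C a).prod ∣ (X ^ m - 1 : ℂ[X]) ^ Multiset.card s := by
      intro s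
      induction s using Multiset.induction_on with
      | empty => intro _; simp
      | cons a s ih =>
        intro hs'
        rw [Multiset.map_cons, Multiset.prod_cons, Multiset.card_cons, pow_succ']
        refine mul_dvd_mul ?_ (ih fun z hz => hs' z (Multiset.mem_cons_of_mem hz))
        rw [dvd_iff_isRoot, IsRoot.def, eval_sub, eval_pow, eval_X, eval_one,
          hs' a (Multiset.mem_cons_self a s), sub_self]
    exact key _ h1
  obtain ⟨q, hq⟩ := hdvd
  have h2 : aeval (M.map (Int.castRingHom ℂ)) ((X ^ m - 1 : ℂ[X]) ^ Multiset.card (p.aroots ℂ)) = 0 := by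
    rw [hq, map_mul, hmap, Matrix.aeval_self_charpoly, zero_mul]
  rw [map_pow, map_sub, map_pow, aeval_X, map_one] at h2
  have h3 : ((Int.castRingHom ℂ).mapMatrix) ((M ^ m - 1) ^ Multiset.card (p.aroots ℂ)) = 0 := by
    rw [map_pow, map_sub, map_pow, map_one]
    exact h2
  have hinj : Function.Injective ((Int.castRingHom ℂ).mapMatrix : Matrix (Fin d) (Fin d) ℤ →+* _) := by
    intro a b hab
    ext i j
    have := congrFun (congrFun hab i) j
    simpa using this
  exact hinj (h3.trans (map_zero _).symm)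

end Pool.Agent.TH261.AB
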