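import Pool.Agent.TH261.AB.Katai
import Pool.Agent.H767R2.Weyl
import Pool.Agent.W726.NS.WeylQ

/-! Möbius sums along residue classes: the criterion of Katai, and polynomial phases. -/

set_option autoImplicit false

open Finset Filter Topology Polynomial

namespace Pool.Agent.TH261.AB

open Pool.Agent.W24.Katai Pool.Agent.Helper188.NCM
open Pool.Agent.H767R2 (cav cav_of_residues tendsto_cav_iff)

variable {H : Type*} [NormedAddCommGroup H] [InnerProductSpace ℂ H]

theorem ee_eq (t : ℝ) : Pool.Agent.H767R2.ee t = ee t := by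
  rw [Pool.Agent.H767R2.ee, ee]
  congr 1; ring

theorem tendsto_Ioc {a : ℕ → ℂ} (ha : ∀ n, ‖a n‖ ≤ 1) (h : Tendsto (cav a) atTop (𝓝 0)) :
    Tendsto (fun M : ℕ => (∑ m ∈ Ioc 0 M, a m) / M) atTop (𝓝 0) := by
  rw [tendsto_cav_iff] at h
  have h1 := h.comp (tendsto_add_atTop_nat 1)
  have h2 : Tendsto (fun N : ℕ => (1 : ℝ) / N) atTop (𝓝 0) := tendsto_const_div_atTop_nhds_zero_nat _
  rw [tendsto_zero_iff_norm_tendsto_zero]
  have h3 := (h1.const_mul 2).add h2
  rw [mul_zero, add_zero] at h3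
  refine squeeze_zero' (Eventually.of_forall fun N => norm_nonneg _) ?_ h3
  filter_upwards [eventually_ge_atTop 1] with N hN
  have hN0 : (0 : ℝ) < N := by exact_mod_cast hN
  have e : ∑ m ∈ Ioc 0 N, a m = ∑ n ∈ range (N + 1), a n - a 0 := by
    rw [range_eq_Ico, sum_eq_sum_Ico_succ_bot (Nat.succ_pos N), add_sub_cancel_left]
    rfl
  rw [norm_div, Complex.norm_natCast, e]
  have h4 : ‖∑ n ∈ range (N + 1), a n - a 0‖ ≤ ‖∑ n ∈ range (N + 1), a n‖ + 1 :=
    (norm_sub_le _ _).trans (by linarith [ha 0])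
  have h5 : ((N + 1 : ℕ) : ℝ) ≤ 2 * N := by
    push_cast
    have : (1 : ℝ) ≤ N := by exact_mod_cast hN
    linarith
  have h6 : ‖∑ n ∈ range (N + 1), a n‖ / N ≤ 2 * (‖∑ n ∈ range (N + 1), a n‖ / ((N + 1 : ℕ) : ℝ)) := by
    have h7 : (0 : ℝ) < ((N + 1 : ℕ) : ℝ) := by exact_mod_cast Nat.succ_pos N
    rw [mul_div_assoc', div_le_div_iff₀ hN0 h7]
    nlinarith [norm_nonneg (∑ n ∈ range (N + 1), a n)]
  calc ‖∑ n ∈ range (N + 1), a n - a 0‖ / N ≤ (‖∑ n ∈ range (N + 1), a n‖ + 1) / N := by gcongr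
    _ = ‖∑ n ∈ range (N + 1), a n‖ / N + 1 / N := add_div _ _ _
    _ ≤ _ := by
        simp only [Function.comp_apply]
        linarith

theorem block_sum {E : Type*} [AddCommMonoid E] (f : ℕ → E) (m M : ℕ) :
    ∑ n ∈ range (m * M), f n = ∑ r ∈ range m, ∑ n ∈ range M, f (m * n + r) := by
  induction M with
  | zero => simp
  | succ M ih =>
    rw [Nat.mul_succ, Finset.sum_range_add, ih, ← Finset.sum_add_distrib]
    refine Finset.sum_congr rfl fun r _ => ?_
    rw [Finset.sum_range_succ]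

/-- the criterion of Katai along a residue class -/
theorem kataiAP {Y : ℕ → H} (hY : ∀ n, ‖Y n‖ ≤ 1) {m r : ℕ} (hm : 0 < m) (hr : r < m)
    (hpq : ∀ p q : ℕ, p.Prime → q.Prime → p ≠ q → ∀ t t' : ℕ,
      Tendsto (cav fun l => inner ℂ (Y (q * l + t')) (Y (p * l + t))) atTop (𝓝 0)) :
    Tendsto (fun N : ℕ => (N : ℂ)⁻¹ • ∑ j ∈ range N, mob (m * j + r) • Y j) atTop (𝓝 0) := by
  set F : ℕ → H := fun n => if n % m = r then Y (n / m) else 0 with hF
  have hF1 : ∀ n, ‖F n‖ ≤ 1 := by
    intro n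
    rw [hF]; simp only
    split_ifs
    · exact hY _
    · simp
  have hFb : ∀ j s, s < m → F (m * j + s) = if s = r then Y j else 0 := by
    intro j s hs
    rw [hF]; simp only
    rw [Nat.mul_add_mod, Nat.mod_eq_of_lt hs, Nat.mul_add_div hm, Nat.div_eq_of_lt hs, add_zero]
  have hcor : ∀ p q : ℕ, p.Prime → q.Prime → p ≠ q →
      Tendsto (fun M : ℕ => corH F p q M / M) atTop (𝓝 0) := by
    intro p q hp hq hne
    have hb : ∀ n, ‖(inner ℂ (F (q * n)) (F (p * n)) : ℂ)‖ ≤ 1 := fun n =>
      (norm_inner_le_norm _ _).trans (by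
        calc _ ≤ (1 : ℝ) * 1 := mul_le_mul (hF1 _) (hF1 _) (norm_nonneg _) zero_le_one
          _ = 1 := one_mul _)
    refine tendsto_Ioc hb ?_
    refine cav_of_residues hb hm fun s hs => ?_
    have e1 : ∀ (x : ℕ) (n : ℕ), F (x * (m * n + s)) =
        if x * s % m = r then Y (x * n + x * s / m) else 0 := by
      intro x n
      rw [hF]; simp only
      rw [show x * (m * n + s) = m * (x * n) + x * s by ring, Nat.mul_add_mod, Nat.mul_add_div hm]
    by_cases h1 : p * s % m = r ∧ q * s % m = r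
    · have e2 : (fun n => (inner ℂ (F (q * (m * n + s))) (F (p * (m * n + s))) : ℂ)) =
          fun n => inner ℂ (Y (q * n + q * s / m)) (Y (p * n + p * s / m)) := by
        funext n
        rw [e1, e1, if_pos h1.1, if_pos h1.2]
      rw [e2]
      exact hpq p q hp hq hne _ _
    · have e2 : (fun n => (inner ℂ (F (q * (m * n + s))) (F (p * (m * n + s))) : ℂ)) =
          fun n => 0 := by
        funext n
        rw [e1, e1]
        by_cases h2 : p * s % m = r
        · rw [if_neg fun h3 => h1 ⟨h2, h3⟩, inner_zero_left]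
        · rw [if_neg h2, inner_zero_right]
      rw [e2]
      have : (cav fun _ => (0 : ℂ)) = fun _ => 0 := by funext N; simp [cav]
      rw [this]
      exact tendsto_const_nhds
  rw [tendsto_zero_iff_norm_tendsto_zero, Metric.tendsto_atTop]
  intro ε hε
  have hm0 : (0 : ℝ) < m := by exact_mod_cast hm
  obtain ⟨N0, hN0⟩ := kataiH hF1 hcor (ε := ε / (2 * m)) (by positivity)
  refine ⟨max 1 (N0 + 1), fun N hN => ?_⟩
  have hN1 : 1 ≤ N := (le_max_left _ _).trans hN
  have hNr : (0 : ℝ) < N := by exact_mod_cast hN1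
  have hN2 : N0 + 1 ≤ N := (le_max_right _ _).trans hN
  have hmN : N ≤ m * N := Nat.le_mul_of_pos_left N hm
  have h1 := hN0 (m * N - 1) (by omega) mob mul1_mob
  have e : ∑ n ∈ Ioc 0 (m * N - 1), mob n • F n = ∑ j ∈ range N, mob (m * j + r) • Y j := by
    have e1 : ∑ n ∈ Ioc 0 (m * N - 1), mob n • F n = ∑ n ∈ range (m * N), mob n • F n := by
      obtain ⟨k, hk⟩ : ∃ k, m * N = k + 1 := ⟨m * N - 1, by omega⟩
      rw [hk, Nat.add_sub_cancel, range_eq_Ico, sum_eq_sum_Ico_succ_bot (Nat.succ_pos k)]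
      have : mob 0 = 0 := by simp [mob]
      rw [this, zero_smul, zero_add]
      rfl
    rw [e1, block_sum, Finset.sum_eq_single r]
    · refine Finset.sum_congr rfl fun j _ => ?_
      rw [hFb j r hr, if_pos rfl]
    · intro s hs hsr
      refine Finset.sum_eq_zero fun j _ => ?_
      rw [hFb j s (Finset.mem_range.1 hs), if_neg hsr, smul_zero]
    · intro h
      exact absurd (Finset.mem_range.2 hr) h
  rw [e] at h1
  rw [dist_zero_right, norm_norm, norm_smul, norm_inv, Complex.norm_natCast]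
  have h2 : ((m * N - 1 : ℕ) : ℝ) ≤ m * N := by
    have : ((m * N - 1 : ℕ) : ℝ) ≤ ((m * N : ℕ) : ℝ) := by exact_mod_cast Nat.sub_le _ _
    push_cast at this ⊢
    exact this
  calc (N : ℝ)⁻¹ * ‖∑ j ∈ range N, mob (m * j + r) • Y j‖ ≤ (N : ℝ)⁻¹ * (ε / (2 * m) * (m * N)) := by
        gcongr
        exact h1.trans (by gcongr)
    _ = ε / 2 := by field_simp
    _ < ε := by linarith

theorem star_ee' (x : ℝ) : (starRingEnd ℂ) (ee x) = ee (-x) := star_ee x

theorem ee_int' (k : ℤ) : ee (k : ℝ) = 1 := by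
  rw [← ee_eq]; exact Pool.Agent.H767R2.ee_int k

theorem cav_smul_iff (a : ℕ → ℂ) : (cav a) = fun N : ℕ => (N : ℂ)⁻¹ • ∑ n ∈ range N, a n := by
  funext N
  rw [cav, smul_eq_mul, one_div]

/-- Möbius is orthogonal to polynomial phases along residue classes -/
theorem mob_poly (d : ℕ) : ∀ (β : ℝ[X]), β.natDegree ≤ d + 1 → ∀ m r : ℕ, 0 < m → r < m →
    Tendsto (cav fun j => mob (m * j + r) * ee (β.eval (j : ℝ))) atTop (𝓝 0) := by
  induction d with
  | zero =>
    intro β hβ m r hm hr
    have h1 : β = C (β.coeff 1) * X + C (β.coeff 0) := eq_X_add_C_of_natDegree_le_one hβ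
    rw [tendsto_cav_iff, Metric.tendsto_atTop]
    intro ε hε
    have hQ : QM (0 / (2 * (m : ℝ) ^ 2)) := by rw [zero_div]; exact qm_zero
    obtain ⟨N0, hN0⟩ := Pool.Agent.W726.NS.apCase 0 m r hm hr hQ (ε / 2) (by positivity)
    refine ⟨max 1 N0, fun N hN => ?_⟩
    have hN1 : 1 ≤ N := (le_max_left _ _).trans hN
    have hNr : (0 : ℝ) < N := by exact_mod_cast hN1
    have h2 := hN0 N ((le_max_right _ _).trans hN) (β.coeff 1)
    have e : ∑ n ∈ range N, mob (m * n + r) * ee (β.eval (n : ℝ)) = ee (β.coeff 0) *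
        ∑ j ∈ range N, mob (m * j + r) * ee (0 * ((j : ℝ) * (j - 1) / 2) + β.coeff 1 * j) := by
      rw [Finset.mul_sum]
      refine Finset.sum_congr rfl fun n _ => ?_
      have e1 : β.eval (n : ℝ) = β.coeff 0 + (0 * ((n : ℝ) * (n - 1) / 2) + β.coeff 1 * n) := by
        conv_lhs => rw [h1]
        simp only [eval_add, eval_mul, eval_C, eval_X]
        ring
      rw [e1, ee_add]
      ring
    rw [dist_zero_right, norm_div, norm_norm, e, norm_mul, norm_ee, one_mul, Real.norm_natCast,
      div_lt_iff₀ hNr]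
    refine lt_of_le_of_lt h2 ?_
    nlinarith
  | succ d ih =>
    intro β hβ m r hm hr
    by_cases hdeg : β.natDegree ≤ d + 1
    · exact ih β hdeg m r hm hr
    have hdeg' : β.natDegree = d + 2 := by omega
    by_cases hirr : Irrational β.leadingCoeff
    · -- the criterion of Katai
      have h1 := kataiAP (H := ℂ) (Y := fun n => ee (β.eval (n : ℝ))) (fun n => (norm_ee _).le)
        hm hr ?_
      · rw [cav_smul_iff]
        simpa only [smul_eq_mul] using h1
      · intro p q hp hq hne t t'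
        set γ : ℝ[X] := β.comp (C (p : ℝ) * X + C (t : ℝ)) - β.comp (C (q : ℝ) * X + C (t' : ℝ)) with hγ
        have hp0 : (p : ℝ) ≠ 0 := by exact_mod_cast hp.ne_zero
        have hq0 : (q : ℝ) ≠ 0 := by exact_mod_cast hq.ne_zero
        have hc : ∀ (x y : ℝ), x ≠ 0 → (β.comp (C x * X + C y)).coeff (d + 2) =
            β.leadingCoeff * x ^ (d + 2) := by
          intro x y hx
          have hn : (C x * X + C y : ℝ[X]).natDegree = 1 := natDegree_linear hx
          have hl : (C x * X + C y : ℝ[X]).leadingCoeff = x := leadingCoeff_linear hx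
          have := coeff_comp_degree_mul_degree (p := β) (q := C x * X + C y) (by rw [hn]; norm_num)
          rwa [hn, mul_one, hl, hdeg'] at this
        have hcoef : γ.coeff (d + 2) = β.leadingCoeff * (((p : ℤ) ^ (d + 2) - (q : ℤ) ^ (d + 2) : ℤ) : ℝ) := by
          rw [hγ, coeff_sub, hc _ _ hp0, hc _ _ hq0]
          push_cast; ring
        have hz : ((p : ℤ) ^ (d + 2) - (q : ℤ) ^ (d + 2) : ℤ) ≠ 0 := by
          intro h
          apply hne
          have h2 : p ^ (d + 2) = q ^ (d + 2) := by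
            have : (p : ℤ) ^ (d + 2) = (q : ℤ) ^ (d + 2) := by linarith
            exact_mod_cast this
          exact Nat.pow_left_injective (by omega : d + 2 ≠ 0) h2
        have h2 := Pool.Agent.H767R2.weyl_poly γ ⟨d + 2, by omega, by
          rw [hcoef]; exact hirr.mul_intCast hz⟩
        refine h2.congr fun N => ?_
        congr 1
        funext l
        rw [ee_eq]
        show ee (γ.eval (l : ℝ)) = ee (β.eval ((p * l + t : ℕ) : ℝ)) *
          (starRingEnd ℂ) (ee (β.eval ((q * l + t' : ℕ) : ℝ)))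
        rw [star_ee', ← ee_add]
        congr 1
        rw [hγ, eval_sub, eval_comp, eval_comp]
        simp only [eval_add, eval_mul, eval_C, eval_X]
        push_cast
        ring
    · -- rational leading coefficient
      rw [Irrational, not_not] at hirr
      obtain ⟨ρ, hρ⟩ := hirr
      have hD : 0 < ρ.den := ρ.den_pos
      have hb : ∀ n, ‖mob (m * n + r) * ee (β.eval (n : ℝ))‖ ≤ 1 := by
        intro n
        rw [norm_mul, norm_ee, mul_one]
        exact norm_mob_le _
      refine cav_of_residues hb hD fun s hs => ?_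
      set A : ℤ := ρ.num * (ρ.den : ℤ) ^ (d + 1) with hA
      set γ : ℝ[X] := β.comp (C (ρ.den : ℝ) * X + C (s : ℝ)) - C (A : ℝ) * X ^ (d + 2) with hγ
      have hD0 : (ρ.den : ℝ) ≠ 0 := by exact_mod_cast hD.ne'
      have hn : (C (ρ.den : ℝ) * X + C (s : ℝ) : ℝ[X]).natDegree = 1 := natDegree_linear hD0
      have hl : (C (ρ.den : ℝ) * X + C (s : ℝ) : ℝ[X]).leadingCoeff = (ρ.den : ℝ) :=
        leadingCoeff_linear hD0
      have hdγ : γ.natDegree ≤ d + 2 := by
        rw [hγ]
        refine (natDegree_sub_le _ _).trans (max_le ?_ ?_)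
        · refine natDegree_comp_le.trans ?_
          rw [hn, mul_one, hdeg']
        · exact natDegree_C_mul_X_pow_le _ _
      have hcγ : γ.coeff (d + 2) = 0 := by
        have := coeff_comp_degree_mul_degree (p := β) (q := C (ρ.den : ℝ) * X + C (s : ℝ))
          (by rw [hn]; norm_num)
        rw [hn, mul_one, hl, hdeg', ← hρ] at this
        rw [hγ, coeff_sub, this, coeff_C_mul, coeff_X_pow, if_pos rfl, mul_one, hA]
        push_cast
        have h3 : (ρ : ℝ) * ρ.den = ρ.num := by
          rw [← Rat.cast_natCast, ← Rat.cast_mul, Rat.mul_den_eq_num, Rat.cast_intCast]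
        rw [pow_succ' (ρ.den : ℝ) (d + 1), ← mul_assoc, h3]
        ring
      have hdγ' : γ.natDegree ≤ d + 1 := by
        have := natDegree_le_pred hdγ hcγ
        omega
      have hmD : 0 < m * ρ.den := Nat.mul_pos hm hD
      have hrD : m * s + r < m * ρ.den := by
        have : m * (s + 1) ≤ m * ρ.den := Nat.mul_le_mul_left _ hs
        have : m * (s + 1) = m * s + m := by ring
        omega
      refine (ih γ hdγ' (m * ρ.den) (m * s + r) hmD hrD).congr fun N => ?_
      congr 1
      funext n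
      rw [show m * (ρ.den * n + s) + r = m * ρ.den * n + (m * s + r) by ring]
      congr 1
      have e1 : β.eval ((ρ.den * n + s : ℕ) : ℝ) = γ.eval (n : ℝ) + ((A * n ^ (d + 2) : ℤ) : ℝ) := by
        rw [hγ, eval_sub, eval_comp]
        simp only [eval_add, eval_mul, eval_C, eval_X, eval_pow]
        push_cast
        ring
      rw [e1, ee_add, ee_int', mul_one]

end Pool.Agent.TH261.AB
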