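import Pool.Agent.TH261.AB.Orbit
import Pool.Agent.H905R2.Kad5.G3
import Pool.Agent.H275R2.Kad5.Univ
import Pool.Agent.H29R2.Kad5.Jord
import Pool.Agent.H204R2.Kad5.GNS
import Pool.Agent.H386R2.Kad5.RState

/-! Möbius disjointness in the strong operator topology of all representations and for all bounded
functionals. -/

set_option autoImplicit false
set_option linter.unusedSectionVars false

open Finset Filter Topology

namespace Pool.Agent.TH261.AB

open Pool.Agent.Helper188.NCM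
open scoped InnerProductSpace

/-- the averages of a sequence of vectors -/
noncomputable def vav {K : Type*} [NormedAddCommGroup K] [NormedSpace ℂ K] (a : ℕ → K) (N : ℕ) : K :=
  (N : ℂ)⁻¹ • ∑ n ∈ range N, a n

section vav

variable {K : Type*} [NormedAddCommGroup K] [NormedSpace ℂ K]

theorem vav_norm (a : ℕ → K) (N : ℕ) : ‖vav a N‖ = ‖∑ n ∈ range N, a n‖ / N := by
  rw [vav, norm_smul, norm_inv, Complex.norm_natCast]
  ring

theorem tendsto_vav_iff (a : ℕ → K) : Tendsto (vav a) atTop (𝓝 0) ↔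
    Tendsto (fun N : ℕ => ‖∑ n ∈ range N, a n‖ / N) atTop (𝓝 0) := by
  rw [tendsto_zero_iff_norm_tendsto_zero]
  exact tendsto_congr fun N => vav_norm a N

theorem vav_le {a : ℕ → K} {C : ℝ} (hC : 0 ≤ C) (ha : ∀ n, ‖a n‖ ≤ C) (N : ℕ) :
    ‖vav a N‖ ≤ C := by
  rw [vav_norm]
  refine div_le_of_le_mul₀ (by positivity) hC ?_
  refine (norm_sum_le _ _).trans ?_
  calc _ ≤ ∑ _j ∈ range N, C := Finset.sum_le_sum fun j _ => ha j
    _ = C * N := by rw [Finset.sum_const, Finset.card_range, nsmul_eq_mul]; ring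

theorem vav_of_residues {a : ℕ → K} {C : ℝ} (hC : 0 ≤ C) (ha : ∀ n, ‖a n‖ ≤ C) {q : ℕ} (hq : 0 < q)
    (h : ∀ r < q, Tendsto (vav fun n => a (q * n + r)) atTop (𝓝 0)) :
    Tendsto (vav a) atTop (𝓝 0) := by
  rw [tendsto_vav_iff]
  have hdiv : Tendsto (fun N : ℕ => N / q) atTop atTop := Nat.tendsto_div_const_atTop hq.ne'
  have h1 : Tendsto (fun N : ℕ => ∑ r ∈ range q, ‖∑ n ∈ range (N / q), a (q * n + r)‖ /
      ((N / q : ℕ) : ℝ)) atTop (𝓝 0) := by
    have : (0 : ℝ) = ∑ _r ∈ range q, (0 : ℝ) := by simp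
    rw [this]
    refine tendsto_finsetSum _ fun r hr => ?_
    exact ((tendsto_vav_iff _).mp (h r (Finset.mem_range.mp hr))).comp hdiv
  have h2 : Tendsto (fun N : ℕ => (q * C : ℝ) / N) atTop (𝓝 0) :=
    tendsto_const_div_atTop_nhds_zero_nat _
  have h3 := h1.add h2
  rw [add_zero] at h3
  have hblock : ∀ M : ℕ, ∑ n ∈ range (q * M), a n =
      ∑ r ∈ range q, ∑ n ∈ range M, a (q * n + r) := by
    intro M
    induction M with
    | zero => simp
    | succ M ih =>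
      rw [Nat.mul_succ, Finset.sum_range_add, ih, ← Finset.sum_add_distrib]
      refine Finset.sum_congr rfl fun r _ => ?_
      rw [Finset.sum_range_succ]
  refine squeeze_zero' (Eventually.of_forall fun N => by positivity) ?_ h3
  filter_upwards [eventually_ge_atTop q] with N hN
  have hNpos : (0 : ℝ) < N := by
    have : 0 < N := lt_of_lt_of_le hq hN
    exact_mod_cast this
  have hMpos : 0 < N / q := Nat.div_pos hN hq
  have hMR : (0 : ℝ) < ((N / q : ℕ) : ℝ) := by exact_mod_cast hMpos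
  have hsplit : ∑ n ∈ range N, a n = ∑ n ∈ range (q * (N / q)), a n
      + ∑ n ∈ range (N % q), a (q * (N / q) + n) := by
    rw [← Finset.sum_range_add, Nat.div_add_mod]
  have hrem : ‖∑ n ∈ range (N % q), a (q * (N / q) + n)‖ ≤ q * C := by
    refine (norm_sum_le _ _).trans ?_
    calc _ ≤ ∑ _j ∈ range (N % q), C := Finset.sum_le_sum fun j _ => ha _
      _ = (N % q : ℕ) * C := by rw [Finset.sum_const, Finset.card_range, nsmul_eq_mul]
      _ ≤ q * C := by
        gcongr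
        exact (Nat.mod_lt N hq).le
  rw [hsplit, hblock]
  calc ‖∑ r ∈ range q, ∑ n ∈ range (N / q), a (q * n + r) +
        ∑ n ∈ range (N % q), a (q * (N / q) + n)‖ / N
      ≤ (∑ r ∈ range q, ‖∑ n ∈ range (N / q), a (q * n + r)‖ + q * C) / N := by
        gcongr
        exact (norm_add_le _ _).trans (add_le_add (norm_sum_le _ _) hrem)
    _ = (∑ r ∈ range q, ‖∑ n ∈ range (N / q), a (q * n + r)‖) / N + q * C / N := add_div _ _ _
    _ ≤ (∑ r ∈ range q, ‖∑ n ∈ range (N / q), a (q * n + r)‖) / ((N / q : ℕ) : ℝ) + q * C / N := by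
        gcongr
        exact_mod_cast Nat.div_le_self N q
    _ = _ := by rw [Finset.sum_div]

/-- from averages over `range N` to averages over `[1, N]` -/
theorem vav_Icc {a : ℕ → K} (h0 : a 0 = 0) (h : Tendsto (vav a) atTop (𝓝 0)) :
    Tendsto (fun N : ℕ => (1 / (N : ℂ)) • ∑ n ∈ Finset.Icc 1 N, a n) atTop (𝓝 0) := by
  have h1 := h.comp (tendsto_add_atTop_nat 1)
  have h2 : Tendsto (fun N : ℕ => ((N : ℂ) + 1) / N) atTop (𝓝 1) := by
    have h3 : Tendsto (fun N : ℕ => 1 + (1 : ℂ) / N) atTop (𝓝 (1 + 0)) :=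
      tendsto_const_nhds.add (tendsto_one_div_atTop_nhds_zero_nat (𝕜 := ℂ))
    rw [add_zero] at h3
    refine h3.congr' ?_
    filter_upwards [eventually_gt_atTop 0] with N hN
    have : (N : ℂ) ≠ 0 := by exact_mod_cast hN.ne'
    field_simp
  have h3 := h2.smul h1
  rw [smul_zero] at h3
  refine h3.congr' ?_
  filter_upwards [eventually_gt_atTop 0] with N hN
  have hN' : (N : ℂ) ≠ 0 := by exact_mod_cast hN.ne'
  have hN'' : (N : ℂ) + 1 ≠ 0 := by exact_mod_cast (Nat.succ_ne_zero N)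
  rw [Function.comp_apply, vav]
  have e : ∑ n ∈ range (N + 1), a n = ∑ n ∈ Finset.Icc 1 N, a n := by
    rw [range_eq_Ico, sum_eq_sum_Ico_succ_bot (Nat.succ_pos N), h0, zero_add]
    rfl
  rw [e, smul_smul]
  congr 1
  push_cast
  field_simp

end vav

variable {U : Type} [CStarAlgebra U]

/-- Möbius orthogonality of the orbit of `x`, strongly in all representations -/
def Good (β : U →⋆ₐ[ℂ] U) (x : U) : Prop :=
  ∀ (K : Type) [NormedAddCommGroup K] [InnerProductSpace ℂ K] [CompleteSpace K]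
    (π : U →⋆ₐ[ℂ] (K →L[ℂ] K)) (ξ : K),
    Tendsto (vav fun n => mob n • π ((β^[n]) x) ξ) atTop (𝓝 0)

theorem Good.zero (β : U →⋆ₐ[ℂ] U) : Good β 0 := by
  intro K _ _ _ π ξ
  have : (vav fun n => mob n • π ((β^[n]) (0 : U)) ξ) = fun _ => 0 := by
    funext N
    have h0 : ∀ n, (β^[n]) (0 : U) = 0 := fun n => by
      have := iter_smul β n 0 0
      rwa [zero_smul, zero_smul] at this
    simp [vav, h0]
  rw [this]
  exact tendsto_const_nhds

theorem Good.add {β : U →⋆ₐ[ℂ] U} {x y : U} (hx : Good β x) (hy : Good β y) :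
    Good β (x + y) := by
  intro K _ _ _ π ξ
  have h := (hx K π ξ).add (hy K π ξ)
  rw [add_zero] at h
  refine h.congr fun N => ?_
  rw [vav, vav, vav, ← smul_add, ← Finset.sum_add_distrib]
  congr 1
  refine Finset.sum_congr rfl fun n _ => ?_
  rw [iter_add, map_add, add_apply, smul_add]

theorem Good.smul {β : U →⋆ₐ[ℂ] U} (c : ℂ) {x : U} (hx : Good β x) : Good β (c • x) := by
  intro K _ _ _ π ξ
  have h := (hx K π ξ).const_smul c
  rw [smul_zero] at h
  refine h.congr fun N => ?_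
  rw [vav, vav, smul_comm, Finset.smul_sum]
  congr 1
  refine Finset.sum_congr rfl fun n _ => ?_
  rw [iter_smul, map_smul, smul_apply, smul_comm]

theorem term_le (β : U →⋆ₐ[ℂ] U) (x : U) {K : Type} [NormedAddCommGroup K] [InnerProductSpace ℂ K]
    [CompleteSpace K] (π : U →⋆ₐ[ℂ] (K →L[ℂ] K)) (ξ : K) (n : ℕ) :
    ‖mob n • π ((β^[n]) x) ξ‖ ≤ ‖x‖ * ‖ξ‖ := by
  rw [norm_smul]
  calc _ ≤ 1 * (‖x‖ * ‖ξ‖) := by
        gcongr
        · exact norm_mob_le _
        · refine (ContinuousLinearMap.le_opNorm _ _).trans ?_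
          gcongr
          exact (NonUnitalStarAlgHom.norm_apply_le π _).trans (iter_norm β n x)
    _ = _ := one_mul _

theorem Good.closed {β : U →⋆ₐ[ℂ] U} {S : Set U} (hS : ∀ x ∈ S, Good β x) :
    ∀ x ∈ closure S, Good β x := by
  intro x hx K _ _ _ π ξ
  rw [Metric.tendsto_atTop]
  intro ε hε
  have hc : 0 < ‖ξ‖ + 1 := by positivity
  obtain ⟨y, hy, hd⟩ := Metric.mem_closure_iff.1 hx (ε / 2 / (‖ξ‖ + 1)) (by positivity)
  obtain ⟨N0, hN0⟩ := Metric.tendsto_atTop.1 (hS y hy K π ξ) (ε / 2) (by positivity)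
  refine ⟨N0, fun N hN => ?_⟩
  have h2 := hN0 N hN
  rw [dist_zero_right] at h2 ⊢
  have e : vav (fun n => mob n • π ((β^[n]) x) ξ) N = vav (fun n => mob n • π ((β^[n]) (x - y)) ξ) N +
      vav (fun n => mob n • π ((β^[n]) y) ξ) N := by
    rw [vav, vav, vav, ← smul_add, ← Finset.sum_add_distrib]
    congr 1
    refine Finset.sum_congr rfl fun n _ => ?_
    rw [iter_sub, map_sub, sub_apply, ← smul_add, sub_add_cancel]
  rw [e]
  have h3 := vav_le (by positivity) (term_le β (x - y) π ξ) N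
  rw [dist_eq_norm] at hd
  have h4 : ‖x - y‖ * ‖ξ‖ ≤ ε / 2 := by
    calc ‖x - y‖ * ‖ξ‖ ≤ (ε / 2 / (‖ξ‖ + 1)) * (‖ξ‖ + 1) := by gcongr; linarith
      _ = ε / 2 := by field_simp
  have h5 := norm_add_le (vav (fun n => mob n • π ((β^[n]) (x - y)) ξ) N)
    (vav (fun n => mob n • π ((β^[n]) y) ξ) N)
  linarith

/-- the span version -/
theorem Good.of_span {β : U →⋆ₐ[ℂ] U} {S : Set U} (hS : ∀ x ∈ S, Good β x) :
    ∀ x ∈ (Submodule.span ℂ S).topologicalClosure, Good β x := by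
  intro x hx
  refine Good.closed (S := (Submodule.span ℂ S : Set U)) (fun y hy => ?_) x hx
  induction hy using Submodule.span_induction with
  | mem x hx => exact hS x hx
  | zero => exact Good.zero β
  | add x y _ _ hx hy => exact hx.add hy
  | smul c x _ hx => exact hx.smul c

variable {G : Type} [CommGroup G] {u : G → U}

theorem eig_iter {β : U →⋆ₐ[ℂ] U} {w : U} {τ : ℝ} (hw : β w = ee τ • w) (n : ℕ) :
    (β^[n]) w = ee (n * τ) • w := by
  induction n with
  | zero => simp [ee_zero]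
  | succ n ih =>
    rw [Function.iterate_succ_apply, hw, iter_smul, ih, smul_smul, ← ee_add]
    congr 2
    push_cast; ring

/-- quasi-unipotence at `g` -/
def QU (σ : G →* G) (g : G) : Prop := ∃ m : ℕ, 0 < m ∧ ∃ k : ℕ, ((Dm σ m)^[k]) g = 1

theorem Good.gen (hu : Tw u) {β : U →⋆ₐ[ℂ] U} {σ : G →* G}
    (hβ : ∀ g, ∃ c : ℂ, ‖c‖ = 1 ∧ β (u g) = c • u (σ g)) {g : G} (hg : QU σ g)
    {w : U} {l : ℂ} (hl : ‖l‖ = 1) (hw : β w = l • w) : Good β (u g * w) := by
  obtain ⟨m, hm, k, hk⟩ := hg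
  obtain ⟨τ, rfl⟩ := exists_ee hl
  intro K _ _ _ π ξ
  refine vav_of_residues (by positivity) (term_le β (u g * w) π ξ) hm fun r hr => ?_
  refine (orbit_vec hu hβ π g hm k hk τ hr (π w ξ)).congr fun N => ?_
  rw [vav]
  congr 1
  refine Finset.sum_congr rfl fun j _ => ?_
  rw [iter_mul, eig_iter hw, map_mul, map_smul, mul_apply_eq_comp, smul_apply, map_smul]

/-- the final form: representations -/
theorem Good.rep {β : U →⋆ₐ[ℂ] U} {x : U} (h : Good β x) (K : Type) [NormedAddCommGroup K]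
    [InnerProductSpace ℂ K] [CompleteSpace K] (π : U →⋆ₐ[ℂ] (K →L[ℂ] K)) (ξ : K) :
    Tendsto (fun N : ℕ => (1 / (N : ℂ)) •
      ∑ n ∈ Finset.Icc 1 N, ((ArithmeticFunction.moebius n : ℤ) : ℂ) • π ((β^[n]) x) ξ)
      atTop (𝓝 0) :=
  vav_Icc (by simp) (h K π ξ)

/-- the final form: functionals -/
theorem Good.fun {β : U →⋆ₐ[ℂ] U} {x : U} (h : Good β x) (ρ : U →L[ℂ] ℂ) :
    Tendsto (fun N : ℕ => (1 / (N : ℂ)) *
      ∑ n ∈ Finset.Icc 1 N, ((ArithmeticFunction.moebius n : ℤ) : ℂ) * ρ ((β^[n]) x))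
      atTop (𝓝 0) := by
  obtain ⟨K, _, _, _, π, hπ⟩ := H759R2.Kad.prove7_rep H759R2.Kad.prove7_jord
    (H759R2.Kad.prove7_univ H759R2.Kad.prove7_gns) U
  obtain ⟨ζ, ω, hρ, -⟩ := hπ ρ.toLinearMap ‖ρ‖ (norm_nonneg _) fun a => ρ.le_opNorm a
  have hρ' : ∀ a, ρ a = ⟪ζ, π a ω⟫_ℂ := hρ
  have h2 := (continuous_const.inner continuous_id : Continuous fun y : K =>
    inner ℂ ζ y).tendsto 0
  rw [inner_zero_right] at h2
  refine (h2.comp (h.rep K π ω)).congr fun N => ?_
  simp only [Function.comp_apply]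
  rw [inner_smul_right, inner_sum]
  congr 1
  refine Finset.sum_congr rfl fun j _ => ?_
  rw [inner_smul_right, hρ']

/-- subsystems -/
theorem Good.embed {W : Type} [CStarAlgebra W] {β : U →⋆ₐ[ℂ] U} (h : ∀ x, Good β x)
    (γ : W →⋆ₐ[ℂ] W) (κ : W →⋆ₐ[ℂ] U) (hκ : Function.Injective κ)
    (hγ : ∀ w, κ (γ w) = β (κ w)) : ∀ w, Good γ w := by
  intro w K _ _ _ π ξ
  have hn : ∀ n : ℕ, κ ((γ^[n]) w) = (β^[n]) (κ w) := by
    intro n
    induction n with
    | zero => rfl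
    | succ n ih => rw [Function.iterate_succ_apply', Function.iterate_succ_apply', hγ, ih]
  -- normalise the vector
  suffices H : ∀ ξ : K, ‖ξ‖ = 1 → Tendsto (vav fun n => mob n • π ((γ^[n]) w) ξ) atTop (𝓝 0) by
    rcases eq_or_ne ξ 0 with rfl | hξ
    · have : (vav fun n => mob n • π ((γ^[n]) w) (0 : K)) = fun _ => 0 := by
        funext N
        simp [vav]
      rw [this]
      exact tendsto_const_nhds
    · have hξ' : ‖ξ‖ ≠ 0 := norm_ne_zero_iff.2 hξ
      have h1 := (H (((‖ξ‖ : ℝ) : ℂ)⁻¹ • ξ) (by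
        rw [norm_smul, norm_inv, Complex.norm_real, norm_norm, inv_mul_cancel₀ hξ'])).const_smul
        ((‖ξ‖ : ℝ) : ℂ)
      rw [smul_zero] at h1
      refine h1.congr fun N => ?_
      rw [vav, vav, smul_comm, Finset.smul_sum]
      congr 1
      refine Finset.sum_congr rfl fun n _ => ?_
      have h2 : ((‖ξ‖ : ℝ) : ℂ) ≠ 0 := by rw [Ne, Complex.ofReal_eq_zero]; exact hξ'
      rw [map_smul, smul_smul, smul_smul]
      congr 1
      field_simp
  intro ξ hξ
  -- the vector state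
  have hbd : ∀ a : W, ‖⟪ξ, π a ξ⟫_ℂ‖ ≤ 1 * ‖a‖ := by
    intro a
    refine (norm_inner_le_norm _ _).trans ?_
    rw [hξ, one_mul, one_mul]
    refine (ContinuousLinearMap.le_opNorm _ _).trans ?_
    rw [hξ, mul_one]
    exact NonUnitalStarAlgHom.norm_apply_le π _
  set φ₀ : W →ₗ[ℂ] ℂ :=
    { toFun := fun a => ⟪ξ, π a ξ⟫_ℂ
      map_add' := fun a b => by rw [map_add, add_apply, inner_add_right]
      map_smul' := fun c a => by
        rw [map_smul, smul_apply, inner_smul_right]; rfl } with hφ₀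
  set φ : W →L[ℂ] ℂ := φ₀.mkContinuous 1 hbd with hφ
  have hφn : ‖φ‖ ≤ 1 := LinearMap.mkContinuous_norm_le _ zero_le_one _
  have hφa : ∀ a, φ a = ⟪ξ, π a ξ⟫_ℂ := fun a => rfl
  have hiso : ∀ x : W, ‖κ x‖ = ‖x‖ := fun x => NonUnitalStarAlgHom.norm_map κ hκ x
  -- extension
  let κl : W →ₗᵢ[ℂ] U := ⟨κ.toAlgHom.toLinearMap, hiso⟩
  let e := κl.equivRange
  let p : Submodule ℂ U := LinearMap.range κl.toLinearMap
  obtain ⟨ψ, hψ, hψn⟩ := exists_extension_norm_eq p (φ.comp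
    (e.symm.toContinuousLinearEquiv : p →L[ℂ] W))
  have hψκ : ∀ x : W, ψ (κ x) = φ x := by
    intro x
    have := hψ (e x)
    have h2 : ((e x : p) : U) = κ x := rfl
    rw [h2] at this
    rw [this]
    simp
  have hψn' : ‖ψ‖ ≤ 1 := by
    rw [hψn]
    refine ContinuousLinearMap.opNorm_le_bound _ zero_le_one fun y => ?_
    rw [ContinuousLinearMap.comp_apply]
    refine (φ.le_opNorm _).trans ?_
    have : ‖(e.symm.toContinuousLinearEquiv : p →L[ℂ] W) y‖ = ‖y‖ := e.symm.norm_map y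
    rw [this]
    gcongr
  have hψ1 : ψ 1 = 1 := by
    have := hψκ 1
    rw [hφa, map_one κ, map_one π, one_apply_eq_self, inner_self_eq_norm_sq_to_K, hξ] at this
    simpa using this
  have hne : Nontrivial U := by
    refine ⟨1, 0, fun h0 => ?_⟩
    rw [h0, map_zero] at hψ1
    exact zero_ne_one hψ1
  have hψ2 : ‖ψ‖ = 1 := by
    refine le_antisymm hψn' ?_
    have := ψ.le_opNorm 1
    rw [hψ1, norm_one, CStarRing.norm_one, mul_one] at this
    exact this
  have hpos := H759R2.Kad.RState.pos_of_norm ψ hψ2 hψ1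
  obtain ⟨K', _, _, _, π', Ω, hΩ, -⟩ := H759R2.Kad.prove7_gns U ψ.toLinearMap hpos
  have hΩ' : ∀ a, ⟪Ω, π' a Ω⟫_ℂ = ψ a := hΩ
  have hnorm : ∀ a : W, ‖π a ξ‖ = ‖π' (κ a) Ω‖ := by
    intro a
    have h1 : ⟪π a ξ, π a ξ⟫_ℂ = ⟪π' (κ a) Ω, π' (κ a) Ω⟫_ℂ := by
      have e1 : ⟪π a ξ, π a ξ⟫_ℂ = ⟪ξ, π (star a * a) ξ⟫_ℂ := by
        rw [map_mul, map_star, mul_apply_eq_comp, ContinuousLinearMap.star_eq_adjoint,
          ContinuousLinearMap.adjoint_inner_right]
      have e2 : ⟪π' (κ a) Ω, π' (κ a) Ω⟫_ℂ = ⟪Ω, π' (star (κ a) * κ a) Ω⟫_ℂ := by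
        rw [map_mul, map_star, mul_apply_eq_comp, ContinuousLinearMap.star_eq_adjoint,
          ContinuousLinearMap.adjoint_inner_right]
      rw [e1, e2, hΩ', ← map_star, ← map_mul, hψκ, hφa]
    rw [inner_self_eq_norm_sq_to_K, inner_self_eq_norm_sq_to_K] at h1
    have h2 : ‖π a ξ‖ ^ 2 = ‖π' (κ a) Ω‖ ^ 2 := by exact_mod_cast h1
    exact (sq_eq_sq₀ (norm_nonneg _) (norm_nonneg _)).1 h2
  have h1 := h (κ w) K' π' Ω
  rw [tendsto_zero_iff_norm_tendsto_zero] at h1 ⊢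
  refine h1.congr fun N => ?_
  have e1 : vav (fun n => mob n • π ((γ^[n]) w) ξ) N =
      π ((N : ℂ)⁻¹ • ∑ n ∈ range N, mob n • (γ^[n]) w) ξ := by
    rw [vav, map_smul, map_sum, smul_apply, ContinuousLinearMap.sum_apply]
    congr 1
    exact Finset.sum_congr rfl fun n _ => by rw [map_smul, smul_apply]
  have e2 : vav (fun n => mob n • π' ((β^[n]) (κ w)) Ω) N =
      π' (κ ((N : ℂ)⁻¹ • ∑ n ∈ range N, mob n • (γ^[n]) w)) Ω := by
    rw [vav, map_smul, map_smul, map_sum, map_sum, smul_apply, ContinuousLinearMap.sum_apply]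
    congr 1
    exact Finset.sum_congr rfl fun n _ => by rw [map_smul, map_smul, smul_apply, hn]
  rw [e1, e2, hnorm]

end Pool.Agent.TH261.AB
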