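import Pool.Agent.TH261.AB.Vdc
import Pool.Agent.TH261.AB.Katai

/-! Projective families of isometries indexed by an abelian group, and averages along polynomial
sequences. -/

set_option autoImplicit false

open Finset Filter Topology

namespace Pool.Agent.TH261.AB

open Pool.Agent.W761.Gauss

section top

variable {A : Type*} [AddCommGroup A]

/-- the `k`-th difference of `f` is the constant `b` -/
def Top : ℕ → (ℕ → A) → A → Prop
  | 0, f, b => ∀ n, f n = b
  | k + 1, f, b => Top k (fun n => f (n + 1) - f n) b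

theorem Top.add {k : ℕ} : ∀ {f g : ℕ → A} {b c : A}, Top k f b → Top k g c →
    Top k (fun n => f n + g n) (b + c) := by
  induction k with
  | zero => intro f g b c hf hg n; exact congrArg₂ _ (hf n) (hg n)
  | succ k ih =>
    intro f g b c hf hg
    have := ih hf hg
    rw [Top]
    convert this using 2 with n
    abel

theorem Top.sub {k : ℕ} : ∀ {f g : ℕ → A} {b c : A}, Top k f b → Top k g c →
    Top k (fun n => f n - g n) (b - c) := by
  induction k with
  | zero => intro f g b c hf hg n; exact congrArg₂ _ (hf n) (hg n)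
  | succ k ih =>
    intro f g b c hf hg
    have := ih hf hg
    rw [Top]
    convert this using 2 with n
    abel

theorem Top.zero {k : ℕ} : Top k (fun _ => (0 : A)) 0 := by
  induction k with
  | zero => intro n; rfl
  | succ k ih => rw [Top]; simpa using ih

theorem Top.shift {k : ℕ} : ∀ {f : ℕ → A} {b : A}, Top k f b → ∀ t : ℕ,
    Top k (fun n => f (n + t)) b := by
  induction k with
  | zero => intro f b hf t n; exact hf _
  | succ k ih =>
    intro f b hf t
    have := ih hf t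
    rw [Top]
    convert this using 2 with n
    rw [show n + 1 + t = n + t + 1 by ring]

theorem Top.sum {k : ℕ} {f : ℕ → ℕ → A} {b : A} (h : ∀ j, Top k (f j) b) (p : ℕ) :
    Top k (fun n => ∑ j ∈ range p, f j n) (p • b) := by
  induction p with
  | zero => simpa using Top.zero
  | succ p ih =>
    have := ih.add (h p)
    convert this using 2 with n
    · rw [Finset.sum_range_succ]
    · rw [succ_nsmul]

theorem telescope (f : ℕ → A) (n h : ℕ) :
    f (n + h) - f n = ∑ j ∈ range h, (f (n + j + 1) - f (n + j)) := by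
  induction h with
  | zero => simp
  | succ h ih =>
    rw [Finset.sum_range_succ, ← ih, ← add_assoc]; abel

theorem Top.dshift {k : ℕ} {f : ℕ → A} {b : A} (hf : Top (k + 1) f b) (h : ℕ) :
    Top k (fun n => f (n + h) - f n) (h • b) := by
  have h1 : ∀ j, Top k (fun n => f (n + j + 1) - f (n + j)) b := fun j =>
    Top.shift (k := k) (f := fun n => f (n + 1) - f n) hf j
  have := Top.sum h1 h
  convert this using 2 with n
  exact telescope f n h

theorem Top.dilate {k : ℕ} : ∀ {f : ℕ → A} {b : A}, Top k f b → ∀ p : ℕ,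
    Top k (fun n => f (p * n)) ((p ^ k) • b) := by
  induction k with
  | zero => intro f b hf p n; simpa using hf _
  | succ k ih =>
    intro f b hf p
    have h1 : ∀ j, Top k (fun n => f (p * n + j + 1) - f (p * n + j)) ((p ^ k) • b) := fun j =>
      ih (f := fun n => f (n + j + 1) - f (n + j))
        (Top.shift (k := k) (f := fun n => f (n + 1) - f n) hf j) p
    have := Top.sum h1 p
    rw [Top]
    rw [smul_smul, ← pow_succ'] at this
    convert this using 2 with n
    rw [show p * (n + 1) = p * n + p by ring]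
    exact telescope f (p * n) p

end top

section proj

variable {H : Type*} [NormedAddCommGroup H] [InnerProductSpace ℂ H]
variable {A : Type*} [AddCommGroup A]

/-- the isometries `V a` multiply like the elements of `A`, up to scalars of modulus one -/
def Proj (V : A → (H →ₗᵢ[ℂ] H)) : Prop :=
  ∀ a b, ∃ c : ℂ, ‖c‖ = 1 ∧ ∀ x, V (a + b) x = c • V a (V b x)

variable {V : A → (H →ₗᵢ[ℂ] H)}

theorem Proj.zero (hV : Proj V) : ∃ c : ℂ, ‖c‖ = 1 ∧ ∀ x, V 0 x = c • x := by
  obtain ⟨c, hc, h⟩ := hV 0 0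
  have hc0 : c ≠ 0 := by intro h0; rw [h0] at hc; simp at hc
  refine ⟨c⁻¹, by rw [norm_inv, hc, inv_one], fun x => ?_⟩
  have h1 := h x
  rw [add_zero, ← map_smul] at h1
  have h2 := (V 0).injective h1
  rw [eq_inv_smul_iff₀ hc0]
  exact h2.symm

theorem Proj.norm_inner (hV : Proj V) (a b : A) (x y : H) :
    ‖inner ℂ (V a x) (V b y)‖ = ‖inner ℂ x (V (b - a) y)‖ := by
  obtain ⟨c, hc, h⟩ := hV a (b - a)
  have h1 := h y
  rw [add_sub_cancel] at h1
  rw [h1, inner_smul_right, norm_mul, hc, one_mul, LinearIsometry.inner_map_map]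

theorem Proj.norm_inner_neg (hV : Proj V) (b : A) (x : H) :
    ‖inner ℂ x (V (-b) x)‖ = ‖inner ℂ x (V b x)‖ := by
  obtain ⟨c, hc, h⟩ := hV.zero
  have h1 := hV.norm_inner b 0 x x
  rw [zero_sub] at h1
  rw [← h1, h, inner_smul_right, norm_mul, hc, one_mul, ← inner_conj_symm, RCLike.norm_conj]

/-- the correlations of `ξ` along the multiples of `b` are small on average -/
def Wn (V : A → (H →ₗᵢ[ℂ] H)) (b : A) (ξ : H) : Prop :=
  ∀ ε : ℝ, 0 < ε → ∃ M : ℕ, 1 ≤ M ∧
    (M : ℝ)⁻¹ * ∑ h ∈ range M, ‖inner ℂ ξ (V (h • b) ξ)‖ ^ 2 ≤ ε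

theorem Wn.neg (hV : Proj V) {b : A} {ξ : H} (h : Wn V b ξ) : Wn V (-b) ξ := by
  intro ε hε
  obtain ⟨M, hM, h1⟩ := h ε hε
  refine ⟨M, hM, le_trans (le_of_eq ?_) h1⟩
  congr 1
  refine Finset.sum_congr rfl fun n _ => ?_
  rw [smul_neg, hV.norm_inner_neg]

theorem Wn.nsmul {b : A} {ξ : H} (h : Wn V b ξ) {m : ℕ} (hm : 1 ≤ m) : Wn V (m • b) ξ := by
  intro ε hε
  have hm0 : (0 : ℝ) < m := by exact_mod_cast hm
  obtain ⟨M, hM, h1⟩ := h (ε / m) (by positivity)
  have hM0 : (0 : ℝ) < M := by exact_mod_cast hM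
  set L := (M + m - 1) / m with hL
  have hL1 : 1 ≤ L := by
    rw [hL, Nat.le_div_iff_mul_le (by omega)]
    omega
  have hL0 : (0 : ℝ) < L := by exact_mod_cast hL1
  have hLM : M ≤ L * m := by
    have h2 : M + m - 1 < (L + 1) * m := by
      rw [← Nat.div_lt_iff_lt_mul (by omega)]
      omega
    have : (L + 1) * m = L * m + m := by ring
    omega
  have hLm : (L - 1) * m < M := by
    have h2 : L * m ≤ M + m - 1 := Nat.div_mul_le_self _ _
    obtain ⟨l, hl⟩ : ∃ l, L = l + 1 := ⟨L - 1, by omega⟩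
    have h5 : (l + 1) * m = l * m + m := by ring
    rw [hl] at h2 ⊢
    rw [Nat.add_sub_cancel]
    omega
  refine ⟨L, hL1, ?_⟩
  have h2 : ∑ h ∈ range L, ‖inner ℂ ξ (V (h • m • b) ξ)‖ ^ 2 ≤
      ∑ h ∈ range M, ‖inner ℂ ξ (V (h • b) ξ)‖ ^ 2 := by
    have e : ∑ h ∈ range L, ‖inner ℂ ξ (V (h • m • b) ξ)‖ ^ 2 =
        ∑ h ∈ (range L).image (fun h => h * m), ‖inner ℂ ξ (V (h • b) ξ)‖ ^ 2 := by
      rw [Finset.sum_image]
      · refine Finset.sum_congr rfl fun n _ => ?_
        rw [smul_smul]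
      · intro x _ y _ hxy
        exact Nat.eq_of_mul_eq_mul_right (by omega) hxy
    rw [e]
    refine Finset.sum_le_sum_of_subset_of_nonneg ?_ (fun _ _ _ => by positivity)
    intro d hd
    obtain ⟨k, hk, rfl⟩ := Finset.mem_image.1 hd
    have hk1 := Finset.mem_range.1 hk
    refine Finset.mem_range.2 (lt_of_le_of_lt ?_ hLm)
    exact Nat.mul_le_mul_right _ (by omega)
  have h3 : ∑ h ∈ range M, ‖inner ℂ ξ (V (h • b) ξ)‖ ^ 2 ≤ M * (ε / m) := by
    rw [inv_mul_le_iff₀ hM0] at h1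
    exact h1
  rw [inv_mul_le_iff₀ hL0]
  refine h2.trans (h3.trans ?_)
  rw [mul_div_assoc', div_le_iff₀ hm0]
  have h4 : (M : ℝ) ≤ L * m := by exact_mod_cast hLM
  nlinarith

theorem Wn.zsmul (hV : Proj V) {b : A} {ξ : H} (h : Wn V b ξ) {m : ℤ} (hm : m ≠ 0) :
    Wn V (m • b) ξ := by
  rcases lt_or_gt_of_ne hm with h1 | h1
  · obtain ⟨n, rfl⟩ : ∃ n : ℕ, m = -(n : ℤ) := ⟨m.natAbs, by omega⟩
    rw [neg_smul, natCast_zsmul]
    exact (h.nsmul (by omega)).neg hV
  · obtain ⟨n, rfl⟩ : ∃ n : ℕ, m = (n : ℤ) := ⟨m.natAbs, by omega⟩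
    rw [natCast_zsmul]
    exact h.nsmul (by omega)

/-- averages along a polynomial sequence whose top difference mixes `ξ` -/
theorem avg_zero (hV : Proj V) (ξ : H) : ∀ (k : ℕ) (f : ℕ → A) (b : A) (c : ℕ → ℂ),
    (∀ n, ‖c n‖ = 1) → Top (k + 1) f b → Wn V b ξ →
    Tendsto (fun N : ℕ => (N : ℂ)⁻¹ • ∑ n ∈ range N, c n • V (f n) ξ) atTop (𝓝 0) := by
  intro k
  have hnorm : ∀ (c : ℕ → ℂ) (f : ℕ → A), (∀ n, ‖c n‖ = 1) → ∀ n, ‖c n • V (f n) ξ‖ ≤ ‖ξ‖ := by
    intro c f hc n
    rw [norm_smul, hc, one_mul, LinearIsometry.norm_map]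
  induction k with
  | zero =>
    intro f b c hc hf hb
    have hfh : ∀ n h, f (n + h) - f n = h • b := by
      intro n h
      exact hf.dshift h n
    refine vdcH (C := ‖ξ‖) (norm_nonneg _) (hnorm c f hc)
      (fun h => ‖inner ℂ ξ (V (h • b) ξ)‖) ?_ (fun h => norm_nonneg _) ?_ ?_
    · obtain ⟨d, hd, h0⟩ := hV.zero
      show ‖ξ‖ ^ 2 ≤ ‖inner ℂ ξ (V (0 • b) ξ)‖
      rw [zero_smul, h0, inner_smul_right, norm_mul, hd, one_mul, ← nsq, norm_pow,
        Complex.norm_real, norm_norm]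
    · intro h _ ε hε
      refine Filter.Eventually.of_forall fun N => ?_
      refine (A1_bound (C := ‖inner ℂ ξ (V (h • b) ξ)‖) (norm_nonneg _) (fun n => ?_) N).trans
        (by linarith)
      rw [inner_smul_left, inner_smul_right, norm_mul, norm_mul, RCLike.norm_conj, hc, hc, one_mul,
        one_mul, hV.norm_inner, hfh]
    · intro ε hε
      obtain ⟨M, hM, h1⟩ := hb (ε ^ 2) (by positivity)
      refine ⟨M, hM, ?_⟩
      have hM0 : (0 : ℝ) < M := by exact_mod_cast hM
      have h2 : (∑ h ∈ range M, ‖inner ℂ ξ (V (h • b) ξ)‖) ^ 2 ≤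
          M * ∑ h ∈ range M, ‖inner ℂ ξ (V (h • b) ξ)‖ ^ 2 := by
        have := sq_sum_le_card_mul_sum_sq (s := range M) (f := fun h => ‖inner ℂ ξ (V (h • b) ξ)‖)
        rwa [Finset.card_range] at this
      apply le_of_sq_le_sq _ hε.le
      rw [mul_pow]
      calc ((M : ℝ)⁻¹) ^ 2 * (∑ h ∈ range M, ‖inner ℂ ξ (V (h • b) ξ)‖) ^ 2
          ≤ ((M : ℝ)⁻¹) ^ 2 * (M * ∑ h ∈ range M, ‖inner ℂ ξ (V (h • b) ξ)‖ ^ 2) :=
            mul_le_mul_of_nonneg_left h2 (by positivity)
        _ = (M : ℝ)⁻¹ * ∑ h ∈ range M, ‖inner ℂ ξ (V (h • b) ξ)‖ ^ 2 := by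
            field_simp
        _ ≤ ε ^ 2 := h1
  | succ k ih =>
    intro f b c hc hf hb
    refine vdcH (C := ‖ξ‖) (norm_nonneg _) (hnorm c f hc)
      (fun h => if h = 0 then ‖ξ‖ ^ 2 else 0) (by simp) (fun h => by positivity) ?_ ?_
    · intro h hh ε hε
      have hg : Top (k + 1) (fun n => f (n + h) - f n) (h • b) := hf.dshift h
      have hd : ∀ n, ∃ d : ℂ, ‖d‖ = 1 ∧ V (f (n + h)) ξ = d • V (f n) (V (f (n + h) - f n) ξ) := by
        intro n
        obtain ⟨d, hd, h1⟩ := hV (f n) (f (n + h) - f n)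
        refine ⟨d, hd, ?_⟩
        have := h1 ξ
        rwa [add_sub_cancel] at this
      choose d hd1 hd2 using hd
      have h2 := ih (fun n => f (n + h) - f n) (h • b)
        (fun n => (starRingEnd ℂ) (c n) * c (n + h) * d n) (fun n => by
          rw [norm_mul, norm_mul, RCLike.norm_conj, hc, hc, hd1]; norm_num) hg (hb.nsmul hh)
      have h3 : Tendsto (fun N : ℕ => inner ℂ ξ ((N : ℂ)⁻¹ • ∑ n ∈ range N,
          ((starRingEnd ℂ) (c n) * c (n + h) * d n) • V (f (n + h) - f n) ξ)) atTop (𝓝 0) := by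
        have := (continuous_const.inner continuous_id : Continuous fun y : H =>
          inner ℂ ξ y).tendsto 0
        rw [inner_zero_right] at this
        exact this.comp h2
      have e : ∀ N : ℕ, A1 (fun n => inner ℂ (c n • V (f n) ξ) (c (n + h) • V (f (n + h)) ξ)) N =
          inner ℂ ξ ((N : ℂ)⁻¹ • ∑ n ∈ range N,
          ((starRingEnd ℂ) (c n) * c (n + h) * d n) • V (f (n + h) - f n) ξ) := by
        intro N
        rw [A1, inner_smul_right, inner_sum]
        congr 1
        refine Finset.sum_congr rfl fun n _ => ?_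
        rw [inner_smul_left, inner_smul_right, hd2, inner_smul_right,
          LinearIsometry.inner_map_map, inner_smul_right]
        ring
      have h4 := h3.norm
      rw [norm_zero] at h4
      have hh0 : ¬ h = 0 := by omega
      filter_upwards [h4.eventually (gt_mem_nhds hε)] with N hN
      rw [e N, if_neg hh0]
      linarith
    · intro ε hε
      obtain ⟨M, hM⟩ := exists_nat_gt (‖ξ‖ ^ 2 / ε)
      have hM0 : (0 : ℝ) < M := lt_of_le_of_lt (by positivity) hM
      have hM1 : 1 ≤ M := by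
        have : 0 < M := by exact_mod_cast hM0
        omega
      refine ⟨M, hM1, ?_⟩
      rw [Finset.sum_ite_eq' (range M) 0, if_pos (Finset.mem_range.2 (by omega)),
        inv_mul_le_iff₀ hM0]
      rw [div_lt_iff₀ hε] at hM
      exact hM.le

end proj

end Pool.Agent.TH261.AB
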