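import Pool.Agent.TH261.AB.Base
import Pool.Agent.TH261.AB.Proj
import Pool.Agent.Helper498.NCR.Wiener

/-! Möbius orthogonality along polynomial sequences in a projective representation of an abelian
group. -/

set_option autoImplicit false
set_option linter.unusedSectionVars false

open Finset Filter Topology

namespace Pool.Agent.TH261.AB

open Pool.Agent.Helper188.NCM
open Pool.Agent.H767R2 (cav cav_of_residues tendsto_cav_iff)
open Pool.Agent.Helper498.NCR (EigSpan wiener)
open scoped Polynomial

/-- polynomial functions on the natural numbers -/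
def IsPF (f : ℕ → ℝ) : Prop := ∃ R : ℝ[X], ∀ n : ℕ, f n = R.eval (n : ℝ)

theorem IsPF.const (c : ℝ) : IsPF fun _ => c := ⟨Polynomial.C c, fun n => by simp⟩

theorem IsPF.id : IsPF fun n => (n : ℝ) := ⟨Polynomial.X, fun n => by simp⟩

theorem IsPF.add {f g : ℕ → ℝ} (hf : IsPF f) (hg : IsPF g) : IsPF fun n => f n + g n := by
  obtain ⟨R, hR⟩ := hf
  obtain ⟨S, hS⟩ := hg
  exact ⟨R + S, fun n => by simp only [Polynomial.eval_add, hR, hS]⟩

theorem IsPF.mul {f g : ℕ → ℝ} (hf : IsPF f) (hg : IsPF g) : IsPF fun n => f n * g n := by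
  obtain ⟨R, hR⟩ := hf
  obtain ⟨S, hS⟩ := hg
  exact ⟨R * S, fun n => by simp only [Polynomial.eval_mul, hR, hS]⟩

theorem IsPF.neg {f : ℕ → ℝ} (hf : IsPF f) : IsPF fun n => - f n := by
  obtain ⟨R, hR⟩ := hf
  exact ⟨-R, fun n => by simp only [Polynomial.eval_neg, hR]⟩

theorem IsPF.sub {f g : ℕ → ℝ} (hf : IsPF f) (hg : IsPF g) : IsPF fun n => f n - g n := by
  simpa only [sub_eq_add_neg] using hf.add hg.neg

theorem IsPF.sum {ι : Type*} (s : Finset ι) {f : ι → ℕ → ℝ} (hf : ∀ i ∈ s, IsPF (f i)) :
    IsPF fun n => ∑ i ∈ s, f i n := by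
  classical
  induction s using Finset.induction_on with
  | empty => simpa using IsPF.const 0
  | insert a s ha ih =>
    have h1 := (hf a (mem_insert_self a s)).add (ih fun i hi => hf i (mem_insert_of_mem hi))
    convert h1 using 2 with n
    rw [Finset.sum_insert ha]

theorem IsPF.choose (i : ℕ) : IsPF fun n => ((n.choose i : ℕ) : ℝ) := by
  refine ⟨Polynomial.C (((i.factorial : ℕ) : ℝ)⁻¹) * descPochhammer ℝ i, fun n => ?_⟩
  simp only [Nat.cast_choose_eq_descPochhammer_div, Polynomial.eval_mul, Polynomial.eval_C]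
  ring

/-- a function with polynomial differences is polynomial -/
theorem IsPF.antidiff {f g : ℕ → ℝ} (hg : IsPF g) (h : ∀ n, f (n + 1) = f n + g n) : IsPF f := by
  obtain ⟨R, hR⟩ := hg
  have hd : fwdDiff 1 f = g := by
    funext n
    rw [fwdDiff, h n]; ring
  have hz : (fwdDiff 1)^[R.natDegree + 2] f = 0 := by
    rw [show R.natDegree + 2 = (R.natDegree + 1) + 1 by ring, Function.iterate_succ_apply, hd]
    have h1 : (fwdDiff 1)^[R.natDegree + 1] (fun x : ℝ => R.eval x) = 0 :=
      Polynomial.fwdDiff_iter_eq_zero_of_degree_lt (P := R) (Nat.lt_succ_self _)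
    funext n
    have h2 := congrFun h1 (n : ℝ)
    rw [fwdDiff_iter_eq_sum_shift] at h2 ⊢
    rw [Pi.zero_apply] at h2 ⊢
    rw [← h2]
    refine Finset.sum_congr rfl fun k _ => ?_
    congr 1
    rw [hR]
    push_cast
    simp
  have hz2 : ∀ k, R.natDegree + 2 ≤ k → (fwdDiff 1)^[k] f = 0 := by
    intro k hk
    obtain ⟨l, rfl⟩ := Nat.exists_eq_add_of_le hk
    rw [add_comm, Function.iterate_add_apply, hz]
    induction l with
    | zero => rfl
    | succ l ih =>
      rw [Function.iterate_succ_apply, show fwdDiff 1 (0 : ℕ → ℝ) = 0 from by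
        funext n; simp [fwdDiff]]
      exact ih (by omega)
  have h3 : f = fun n => ∑ k ∈ range (R.natDegree + 2),
      ((n.choose k : ℕ) : ℝ) * ((fwdDiff 1)^[k] f 0) := by
    funext n
    have h4 := shift_eq_sum_fwdDiff_iter 1 f n 0
    simp only [smul_eq_mul, mul_one, zero_add] at h4
    rw [h4]
    have h5 : ∑ k ∈ range (n + 1), n.choose k • (fwdDiff 1)^[k] f 0 =
        ∑ k ∈ range (max (n + 1) (R.natDegree + 2)), n.choose k • (fwdDiff 1)^[k] f 0 := by
      refine Finset.sum_subset (Finset.range_mono (le_max_left _ _)) fun k _ hk => ?_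
      rw [Finset.mem_range, not_lt] at hk
      rw [Nat.choose_eq_zero_of_lt (by omega), zero_smul]
    have h6 : ∑ k ∈ range (R.natDegree + 2), ((n.choose k : ℕ) : ℝ) * ((fwdDiff 1)^[k] f 0) =
        ∑ k ∈ range (max (n + 1) (R.natDegree + 2)), n.choose k • (fwdDiff 1)^[k] f 0 := by
      rw [← Finset.sum_subset (Finset.range_mono (le_max_right (n + 1) (R.natDegree + 2)))]
      · refine Finset.sum_congr rfl fun k _ => ?_
        rw [nsmul_eq_mul]
      · intro k _ hk
        rw [Finset.mem_range, not_lt] at hk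
        rw [hz2 k hk]
        simp
    rw [h5, h6]
  rw [h3]
  exact IsPF.sum _ fun k _ => (IsPF.choose k).mul (IsPF.const _)

section newton

variable {A : Type*} [AddCommGroup A]

/-- the polynomial sequence with Newton coefficients `p i`, `i < k` -/
def newt (p : ℕ → A) (k n : ℕ) : A := ∑ i ∈ range k, n.choose i • p i

theorem newt_succ (p : ℕ → A) (k n : ℕ) : newt p (k + 1) n = newt p k n + n.choose k • p k := by
  rw [newt, Finset.sum_range_succ, newt]

theorem newt_diff (p : ℕ → A) (k n : ℕ) :
    newt p (k + 1) (n + 1) = newt p (k + 1) n + newt (fun i => p (i + 1)) k n := by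
  rw [newt, newt, newt, Finset.sum_range_succ', Finset.sum_range_succ' (fun i => n.choose i • p i)]
  simp only [Nat.choose_succ_succ, add_smul, Finset.sum_add_distrib, Nat.choose_zero_right]
  abel

theorem newt_top (k : ℕ) : ∀ p : ℕ → A, Top k (newt p (k + 1)) (p k) := by
  induction k with
  | zero => intro p n; simp [newt]
  | succ k ih =>
    intro p
    have := ih fun i => p (i + 1)
    rw [Top]
    convert this using 2 with n
    rw [newt_diff]
    abel

theorem IsPF.newt (φ : A →+ ℝ) (p : ℕ → A) (k : ℕ) : IsPF fun n => φ (AB.newt p k n) := by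
  have : (fun n => φ (AB.newt p k n)) = fun n => ∑ i ∈ range k, ((n.choose i : ℕ) : ℝ) * φ (p i) := by
    funext n
    rw [AB.newt, map_sum]
    refine Finset.sum_congr rfl fun i _ => ?_
    rw [map_nsmul, nsmul_eq_mul]
  rw [this]
  exact IsPF.sum _ fun i _ => (IsPF.choose i).mul (IsPF.const _)

theorem IsPF.newt₂ (B : A →+ A →+ ℝ) (p q : ℕ → A) (k l : ℕ) :
    IsPF fun n => B (AB.newt p k n) (AB.newt q l n) := by
  have : (fun n => B (AB.newt p k n) (AB.newt q l n)) =
      fun n => ∑ i ∈ range k, ((n.choose i : ℕ) : ℝ) * B (p i) (AB.newt q l n) := by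
    funext n
    conv_lhs => rw [AB.newt, map_sum, AddMonoidHom.finsetSum_apply]
    refine Finset.sum_congr rfl fun i _ => ?_
    rw [map_nsmul, AddMonoidHom.nsmul_apply, nsmul_eq_mul]
  rw [this]
  exact IsPF.sum _ fun i _ => (IsPF.choose i).mul (IsPF.newt (B (p i)) q l)

end newton

section main

variable {H : Type*} [NormedAddCommGroup H] [InnerProductSpace ℂ H]
variable {A : Type*} [AddCommGroup A]

/-- a projective representation with a bilinear cocycle -/
def BiProj (V : A → (H →ₗᵢ[ℂ] H)) (B : A →+ A →+ ℝ) : Prop :=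
  ∀ a b x, V a (V b x) = ee (B a b) • V (a + b) x

variable {V : A → (H →ₗᵢ[ℂ] H)} {B : A →+ A →+ ℝ}

theorem ee_neg_mul (x : ℝ) : ee (-x) * ee x = 1 := by
  rw [← ee_add, neg_add_cancel, ee_zero]

theorem BiProj.proj (h : BiProj V B) : Proj V := by
  intro a b
  refine ⟨ee (-(B a b)), norm_ee _, fun x => ?_⟩
  rw [h a b x, smul_smul, ee_neg_mul, one_smul]

theorem BiProj.add (h : BiProj V B) (a b : A) (x : H) :
    V (a + b) x = ee (-(B a b)) • V a (V b x) := by
  rw [h a b x, smul_smul, ee_neg_mul, one_smul]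

theorem BiProj.zero (h : BiProj V B) (x : H) : V 0 x = x := by
  have h1 := h 0 0 x
  rw [add_zero, map_zero (B 0), ee_zero, one_smul] at h1
  exact (V 0).injective h1

/-- the action of the multiples of `a` on an eigenvector -/
theorem BiProj.eig (h : BiProj V B) (a : A) (x : H) (θ : ℝ) (hx : V a x = ee θ • x) (n : ℕ) :
    V (n • a) x = ee (n * θ - B a a * ((n : ℝ) * (n - 1) / 2)) • x := by
  induction n with
  | zero => simp [h.zero, ee_zero]
  | succ n ih =>
    rw [succ_nsmul, h.add, hx, LinearIsometry.map_smul, ih, smul_smul, smul_smul, ← ee_add,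
      ← ee_add]
    congr 2
    rw [map_nsmul, AddMonoidHom.nsmul_apply, nsmul_eq_mul]
    push_cast
    ring

/-- the averages -/
noncomputable def TN (V : A → (H →ₗᵢ[ℂ] H)) (m r : ℕ) (f : ℕ → ℝ) (P : ℕ → A) (N : ℕ) (ξ : H) : H :=
  (N : ℂ)⁻¹ • ∑ j ∈ range N, mob (m * j + r) • (ee (f j) • V (P j) ξ)

theorem TN_add (m r : ℕ) (f : ℕ → ℝ) (P : ℕ → A) (N : ℕ) (ξ η : H) :
    TN V m r f P N (ξ + η) = TN V m r f P N ξ + TN V m r f P N η := by
  simp only [TN, map_add, smul_add, Finset.sum_add_distrib]

theorem TN_smul (m r : ℕ) (f : ℕ → ℝ) (P : ℕ → A) (N : ℕ) (c : ℂ) (ξ : H) :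
    TN V m r f P N (c • ξ) = c • TN V m r f P N ξ := by
  simp only [TN, map_smul, Finset.smul_sum]
  refine Finset.sum_congr rfl fun j _ => ?_
  simp only [smul_smul]
  congr 1
  ring

theorem TN_norm (m r : ℕ) (f : ℕ → ℝ) (P : ℕ → A) (N : ℕ) (ξ : H) :
    ‖TN V m r f P N ξ‖ ≤ ‖ξ‖ := by
  rw [TN, norm_smul, norm_inv, Complex.norm_natCast]
  rcases Nat.eq_zero_or_pos N with h0 | h0
  · subst h0; simp
  · rw [inv_mul_le_iff₀ (by exact_mod_cast h0)]
    refine (norm_sum_le _ _).trans ?_
    calc _ ≤ ∑ _j ∈ range N, ‖ξ‖ := by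
          refine Finset.sum_le_sum fun j _ => ?_
          rw [norm_smul, norm_smul, norm_ee, one_mul, LinearIsometry.norm_map]
          calc _ ≤ 1 * ‖ξ‖ := by gcongr; exact norm_mob_le _
            _ = _ := one_mul _
      _ = _ := by rw [Finset.sum_const, Finset.card_range, nsmul_eq_mul]

theorem TN_closed (m r : ℕ) (f : ℕ → ℝ) (P : ℕ → A) (S : Submodule ℂ H)
    (hS : ∀ ξ ∈ S, Tendsto (fun N => TN V m r f P N ξ) atTop (𝓝 0)) :
    ∀ ξ ∈ S.topologicalClosure, Tendsto (fun N => TN V m r f P N ξ) atTop (𝓝 0) := by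
  intro ξ hξ
  rw [Metric.tendsto_atTop]
  intro ε hε
  have h1 : ξ ∈ closure (S : Set H) := hξ
  obtain ⟨η, hη, hd⟩ := Metric.mem_closure_iff.1 h1 (ε / 2) (by positivity)
  obtain ⟨N0, hN0⟩ := Metric.tendsto_atTop.1 (hS η hη) (ε / 2) (by positivity)
  refine ⟨N0, fun N hN => ?_⟩
  have h2 := hN0 N hN
  rw [dist_zero_right] at h2 ⊢
  have e : TN V m r f P N ξ = TN V m r f P N (ξ - η) + TN V m r f P N η := by
    rw [← TN_add, sub_add_cancel]
  rw [e]
  have h3 := norm_add_le (TN V m r f P N (ξ - η)) (TN V m r f P N η)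
  have h4 := TN_norm (V := V) m r f P N (ξ - η)
  rw [dist_eq_norm] at hd
  linarith

/-- **Möbius orthogonality along polynomial sequences.** -/
theorem main_poly [CompleteSpace H] (hV : BiProj V B) {m r : ℕ} (hm : 0 < m) (hr : r < m)
    (k : ℕ) : ∀ (p : ℕ → A) (f : ℕ → ℝ), IsPF f → ∀ ξ : H,
      Tendsto (fun N => TN V m r f (newt p (k + 1)) N ξ) atTop (𝓝 0) := by
  induction k with
  | zero =>
    intro p f hf ξ
    obtain ⟨R, hR⟩ := hf
    have h1 := mob_poly R.natDegree R (Nat.le_succ _) m r hm hr
    have h2 : Tendsto (fun N => (cav (fun j => mob (m * j + r) * ee (R.eval (j : ℝ))) N) •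
        V (p 0) ξ) atTop (𝓝 ((0 : ℂ) • V (p 0) ξ)) := h1.smul_const _
    rw [zero_smul] at h2
    refine h2.congr fun N => ?_
    rw [cav, TN, one_div, mul_smul, Finset.sum_smul]
    congr 1
    refine Finset.sum_congr rfl fun j _ => ?_
    rw [hR, mul_smul]
    simp [newt]
  | succ k ih =>
    intro p f hf
    set a : A := p (k + 1) with ha
    set U : H →ₗᵢ[ℂ] H := V a with hU
    -- the span of the eigenvectors
    have hspan : ∀ ξ ∈ EigSpan U,
        Tendsto (fun N => TN V m r f (newt p (k + 1 + 1)) N ξ) atTop (𝓝 0) := by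
      intro ξ hξ
      induction hξ using Submodule.span_induction with
      | mem x hx =>
        obtain ⟨l, hl, hx⟩ := hx
        obtain ⟨θ, rfl⟩ := exists_ee hl
        set g : ℕ → ℝ := fun j => f j + (((j.choose (k + 1) : ℕ) : ℝ) * θ -
          B a a * (((j.choose (k + 1) : ℕ) : ℝ) * (((j.choose (k + 1) : ℕ) : ℝ) - 1) / 2)) -
          ((j.choose (k + 1) : ℕ) : ℝ) * B (newt p (k + 1) j) a with hg
        have hgPF : IsPF g := by
          have hc := IsPF.choose (k + 1)
          have h3 : IsPF fun j => B (newt p (k + 1) j) a :=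
            IsPF.newt (B.flip a) p (k + 1)
          have h4 : IsPF fun j : ℕ => B a a * (((j.choose (k + 1) : ℕ) : ℝ) *
              (((j.choose (k + 1) : ℕ) : ℝ) - 1) / 2) := by
            have := ((IsPF.const (B a a)).mul ((hc.mul (hc.sub (IsPF.const 1))).mul
              (IsPF.const (1 / 2 : ℝ))))
            convert this using 2 with j
            ring
          exact (hf.add ((hc.mul (IsPF.const θ)).sub h4)).sub (hc.mul h3)
        refine (ih p g hgPF x).congr fun N => ?_
        rw [TN, TN]
        congr 1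
        refine Finset.sum_congr rfl fun j _ => ?_
        congr 1
        rw [newt_succ p (k + 1), hV.add, hV.eig a x θ hx, LinearIsometry.map_smul, smul_smul,
          smul_smul,
          ← ee_add, ← ee_add]
        congr 2
        rw [hg, map_nsmul, nsmul_eq_mul]
        ring
      | zero =>
        have : (fun N => TN V m r f (newt p (k + 1 + 1)) N (0 : H)) = fun _ => 0 := by
          funext N
          simp [TN]
        rw [this]
        exact tendsto_const_nhds
      | add x y _ _ hx hy =>
        have := hx.add hy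
        rw [add_zero] at this
        exact this.congr fun N => (TN_add m r f _ N x y).symm
      | smul c x _ hx =>
        have := hx.const_smul c
        rw [smul_zero] at this
        exact this.congr fun N => (TN_smul m r f _ N c x).symm
    -- the orthogonal complement
    have horth : ∀ ξ ∈ (EigSpan U)ᗮ,
        Tendsto (fun N => TN V m r f (newt p (k + 1 + 1)) N ξ) atTop (𝓝 0) := by
      have hone : ∀ ξ ∈ (EigSpan U)ᗮ, ‖ξ‖ ≤ 1 →
          Tendsto (fun N => TN V m r f (newt p (k + 1 + 1)) N ξ) atTop (𝓝 0) := by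
        intro ξ hξ hξ1
        have hUh : ∀ h : ℕ, ‖inner ℂ ξ (V (h • a) ξ)‖ = ‖inner ℂ ξ ((U ^ h) ξ)‖ := by
          have key : ∀ h : ℕ, ∃ c : ℂ, ‖c‖ = 1 ∧ ∀ x, V (h • a) x = c • (U ^ h) x := by
            intro h
            induction h with
            | zero => exact ⟨1, norm_one, fun x => by simp [hV.zero]⟩
            | succ h ih2 =>
              obtain ⟨c, hc, h5⟩ := ih2
              refine ⟨ee (-(B a (h • a))) * c, by rw [norm_mul, norm_ee, hc, one_mul], fun x => ?_⟩
              rw [succ_nsmul', hV.add, h5, LinearIsometry.map_smul, smul_smul, pow_succ', LinearIsometry.coe_mul,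
                Function.comp_apply]
          intro h
          obtain ⟨c, hc, h5⟩ := key h
          rw [h5, inner_smul_right, norm_mul, hc, one_mul]
        have hWn : Wn V a ξ := by
          intro ε hε
          obtain ⟨_, M, _, hM, h6⟩ := wiener U ξ hξ ε hε
          refine ⟨M, hM, le_trans (le_of_eq ?_) h6⟩
          congr 1
          exact Finset.sum_congr rfl fun h _ => by rw [hUh]
        refine kataiAP (Y := fun j => ee (f j) • V (newt p (k + 1 + 1) j) ξ) (fun n => ?_) hm hr ?_
        · rw [norm_smul, norm_ee, one_mul, LinearIsometry.norm_map]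
          exact hξ1
        · intro q s hq hs hne t t'
          have htop : Top (k + 1) (newt p (k + 1 + 1)) a := newt_top (k + 1) p
          have hgt : Top (k + 1) (fun l => newt p (k + 1 + 1) (q * l + t) -
              newt p (k + 1 + 1) (s * l + t')) (q ^ (k + 1) • a - s ^ (k + 1) • a) := by
            have h7 := (htop.shift t).dilate q
            have h8 := (htop.shift t').dilate s
            exact h7.sub h8
          have hz : ((q : ℤ) ^ (k + 1) - (s : ℤ) ^ (k + 1) : ℤ) ≠ 0 := by
            intro h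
            apply hne
            have h2 : q ^ (k + 1) = s ^ (k + 1) := by
              have : (q : ℤ) ^ (k + 1) = (s : ℤ) ^ (k + 1) := by linarith
              exact_mod_cast this
            exact Nat.pow_left_injective (by omega : k + 1 ≠ 0) h2
          have hab : q ^ (k + 1) • a - s ^ (k + 1) • a =
              ((q : ℤ) ^ (k + 1) - (s : ℤ) ^ (k + 1) : ℤ) • a := by
            rw [sub_smul]
            congr 1
            · rw [← Nat.cast_pow, natCast_zsmul]
            · rw [← Nat.cast_pow, natCast_zsmul]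
          rw [hab] at hgt
          have hWz := hWn.zsmul hV.proj hz
          have hd : ∀ l, ∃ d : ℂ, ‖d‖ = 1 ∧ V (newt p (k + 1 + 1) (q * l + t)) ξ =
              d • V (newt p (k + 1 + 1) (s * l + t')) (V (newt p (k + 1 + 1) (q * l + t) -
                newt p (k + 1 + 1) (s * l + t')) ξ) := by
            intro l
            obtain ⟨d, hd, h1⟩ := hV.proj (newt p (k + 1 + 1) (s * l + t'))
              (newt p (k + 1 + 1) (q * l + t) - newt p (k + 1 + 1) (s * l + t'))
            refine ⟨d, hd, ?_⟩
            have := h1 ξ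
            rwa [add_sub_cancel] at this
          choose d hd1 hd2 using hd
          have h9 := avg_zero hV.proj ξ k _ _ (fun l => (starRingEnd ℂ) (ee (f (s * l + t'))) *
            ee (f (q * l + t)) * d l) (fun l => by
              rw [norm_mul, norm_mul, RCLike.norm_conj, norm_ee, norm_ee, hd1]; norm_num) hgt hWz
          have h10 := (continuous_const.inner continuous_id : Continuous fun y : H =>
            inner ℂ ξ y).tendsto 0
          rw [inner_zero_right] at h10
          refine (h10.comp h9).congr fun N => ?_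
          simp only [Function.comp_apply]
          rw [inner_smul_right, inner_sum, cav, one_div]
          congr 1
          refine Finset.sum_congr rfl fun l _ => ?_
          rw [inner_smul_left, inner_smul_right, inner_smul_right, hd2 l, inner_smul_right,
            LinearIsometry.inner_map_map]
          ring
      intro ξ hξ
      have hc : (0 : ℝ) < ‖ξ‖ + 1 := by positivity
      have h1 := hone (((‖ξ‖ + 1 : ℝ) : ℂ)⁻¹ • ξ) (Submodule.smul_mem _ _ hξ) (by
        rw [norm_smul, norm_inv, Complex.norm_real, Real.norm_eq_abs, abs_of_pos hc,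
          inv_mul_le_iff₀ hc]
        linarith)
      have h2 := h1.const_smul ((‖ξ‖ + 1 : ℝ) : ℂ)
      rw [smul_zero] at h2
      refine h2.congr fun N => ?_
      rw [← TN_smul, smul_smul, mul_inv_cancel₀ (by
        rw [Ne, Complex.ofReal_eq_zero]; exact hc.ne'), one_smul]
    intro ξ
    set K := (EigSpan U).topologicalClosure with hK
    have hKc : IsClosed (K : Set H) := Submodule.isClosed_topologicalClosure _
    have : CompleteSpace K := hKc.completeSpace_coe
    obtain ⟨y, hy, z, hz, hyz⟩ := K.exists_add_mem_mem_orthogonal ξ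
    have hz' : z ∈ (EigSpan U)ᗮ := by
      rw [hK, Submodule.orthogonal_closure] at hz
      exact hz
    have h1 := TN_closed m r f _ _ hspan y hy
    have h2 := (h1.add (horth z hz'))
    rw [add_zero] at h2
    refine h2.congr fun N => ?_
    rw [← TN_add, ← hyz]

end main

end Pool.Agent.TH261.AB
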