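import Pool.Agent.TH261.AB.Rep

/-! The orbit formula, and Möbius orthogonality of the orbits. -/

set_option autoImplicit false
set_option linter.unusedSectionVars false

open Finset Filter Topology

namespace Pool.Agent.TH261.AB

open Pool.Agent.Helper188.NCM
open Pool.Agent.H767R2 (cav cav_of_residues tendsto_cav_iff)

section formula

variable {H : Type*} [NormedAddCommGroup H] [InnerProductSpace ℂ H]
variable {A : Type*} [AddCommGroup A] {V : A → (H ≃ₗᵢ[ℂ] H)} {B : A →+ A →+ ℝ}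

theorem orbit_formula (hV : BiProj (fun x => (V x).toLinearIsometry) B) (k : ℕ) :
    ∀ (X : ℕ → ℕ → H → H) (a : ℕ → A) (θ : ℕ → ℝ),
      (∀ i ≤ k, ∀ x, X i 0 x = V (a i) x) →
      (∀ i < k, ∀ n x, X i (n + 1) x = ee (θ i) • X i n (X (i + 1) n x)) →
      (∀ n x, X k n x = V (a k) x) →
      ∃ R : ℕ → ℝ, IsPF R ∧ ∀ n x, X 0 n x = ee (R n) • V (newt a (k + 1) n) x := by
  induction k with
  | zero =>
    intro X a θ _ _ h3
    refine ⟨fun _ => 0, IsPF.const 0, fun n x => ?_⟩
    rw [h3, ee_zero, one_smul]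
    simp [newt]
  | succ k ih =>
    intro X a θ h1 h2 h3
    obtain ⟨R', hR', h4⟩ := ih (fun i => X (i + 1)) (fun i => a (i + 1)) (fun i => θ (i + 1))
      (fun i hi => h1 (i + 1) (by omega)) (fun i hi => h2 (i + 1) (by omega)) h3
    set P : ℕ → A := newt a (k + 1 + 1) with hP
    set P' : ℕ → A := newt (fun i => a (i + 1)) (k + 1) with hP'
    set g : ℕ → ℝ := fun n => θ 0 + R' n + B (P n) (P' n) with hg
    set R : ℕ → ℝ := fun n => ∑ j ∈ range n, g j with hR
    have hgP : IsPF g := ((IsPF.const _).add hR').add (IsPF.newt₂ B _ _ _ _)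
    refine ⟨R, hgP.antidiff fun n => by rw [hR]; simp only [Finset.sum_range_succ], fun n => ?_⟩
    induction n with
    | zero =>
      intro x
      have e : P 0 = a 0 := by
        rw [hP, newt, Finset.sum_range_succ']
        simp
      rw [h1 0 (by omega), e, hR]
      simp [ee_zero]
    | succ n ihn =>
      intro x
      have hV' := hV (P n) (P' n) x
      simp only [LinearIsometryEquiv.coe_toLinearIsometry] at hV'
      rw [h2 0 (by omega), h4, ihn, LinearIsometryEquiv.map_smul, hV', hP, newt_diff, smul_smul,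
        smul_smul, smul_smul, ← ee_add, ← ee_add, ← ee_add]
      congr 2
      rw [hR]
      simp only [Finset.sum_range_succ, hg]
      ring

end formula

section cstar

variable {U : Type} [CStarAlgebra U]

theorem iter_mul (α : U →⋆ₐ[ℂ] U) (n : ℕ) (x y : U) :
    (α^[n]) (x * y) = (α^[n]) x * (α^[n]) y := by
  induction n generalizing x y with
  | zero => simp
  | succ n ih => rw [Function.iterate_succ_apply, Function.iterate_succ_apply,
      Function.iterate_succ_apply, map_mul, ih]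

theorem iter_add (α : U →⋆ₐ[ℂ] U) (n : ℕ) (x y : U) :
    (α^[n]) (x + y) = (α^[n]) x + (α^[n]) y := by
  induction n generalizing x y with
  | zero => simp
  | succ n ih => rw [Function.iterate_succ_apply, Function.iterate_succ_apply,
      Function.iterate_succ_apply, map_add, ih]

theorem iter_sub (α : U →⋆ₐ[ℂ] U) (n : ℕ) (x y : U) :
    (α^[n]) (x - y) = (α^[n]) x - (α^[n]) y := by
  induction n generalizing x y with
  | zero => simp
  | succ n ih => rw [Function.iterate_succ_apply, Function.iterate_succ_apply,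
      Function.iterate_succ_apply, map_sub, ih]

theorem iter_norm (α : U →⋆ₐ[ℂ] U) (n : ℕ) (x : U) : ‖(α^[n]) x‖ ≤ ‖x‖ := by
  induction n generalizing x with
  | zero => simp
  | succ n ih =>
    rw [Function.iterate_succ_apply]
    exact (ih _).trans (NonUnitalStarAlgHom.norm_apply_le α x)

theorem iter_one (α : U →⋆ₐ[ℂ] U) (n : ℕ) : (α^[n]) (1 : U) = 1 := by
  induction n with
  | zero => simp
  | succ n ih => rw [Function.iterate_succ_apply, map_one, ih]

/-- the data: unitaries which multiply like the elements of a commutative group up to scalars -/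
structure Tw {G : Type} [CommGroup G] (u : G → U) : Prop where
  unit : ∀ g, u g ∈ unitary U
  mul : ∀ g h, ∃ c : ℂ, ‖c‖ = 1 ∧ u (g * h) = c • (u g * u h)

variable {G : Type} [CommGroup G] {u : G → U}

theorem inv_norm_one {c : ℂ} (hc : ‖c‖ = 1) : ‖c⁻¹‖ = 1 := by rw [norm_inv, hc, inv_one]

theorem ne_zero_of_norm {c : ℂ} (hc : ‖c‖ = 1) : c ≠ 0 := by
  rintro rfl
  simp at hc

theorem Tw.one (h : Tw u) : ∃ c : ℂ, ‖c‖ = 1 ∧ u 1 = c • 1 := by
  obtain ⟨c, hc, h1⟩ := h.mul 1 1
  rw [mul_one] at h1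
  have h2 := congrArg (fun x => star (u 1) * x) h1
  simp only [mul_smul_comm, ← mul_assoc] at h2
  rw [Unitary.star_mul_self_of_mem (h.unit 1), one_mul] at h2
  refine ⟨c⁻¹, inv_norm_one hc, ?_⟩
  rw [h2, smul_smul, inv_mul_cancel₀ (ne_zero_of_norm hc), one_smul]

theorem Tw.comm (h : Tw u) (g g' : G) : ∃ c : ℂ, ‖c‖ = 1 ∧ u g * u g' = c • (u g' * u g) := by
  obtain ⟨c, hc, h1⟩ := h.mul g g'
  obtain ⟨c', hc', h2⟩ := h.mul g' g
  refine ⟨c⁻¹ * c', by rw [norm_mul, inv_norm_one hc, hc', one_mul], ?_⟩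
  rw [mul_smul, ← h2, mul_comm g' g, h1, smul_smul, inv_mul_cancel₀ (ne_zero_of_norm hc), one_smul]

theorem cover_iter {α : U →⋆ₐ[ℂ] U} {σ : G →* G}
    (hα : ∀ g, ∃ c : ℂ, ‖c‖ = 1 ∧ α (u g) = c • u (σ g)) (n : ℕ) (g : G) :
    ∃ c : ℂ, ‖c‖ = 1 ∧ (α^[n]) (u g) = c • u ((σ^[n]) g) := by
  induction n generalizing g with
  | zero => exact ⟨1, by simp, by simp⟩
  | succ n ih =>
    obtain ⟨c, hc, h1⟩ := hα g
    obtain ⟨c', hc', h2⟩ := ih (σ g)
    refine ⟨c * c', by rw [norm_mul, hc, hc', one_mul], ?_⟩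
    rw [Function.iterate_succ_apply, Function.iterate_succ_apply, h1, iter_smul, h2, smul_smul]

theorem sig_iter_mul (σ : G →* G) (n : ℕ) (x y : G) :
    (σ^[n]) (x * y) = (σ^[n]) x * (σ^[n]) y := by
  induction n generalizing x y with
  | zero => simp
  | succ n ih => rw [Function.iterate_succ_apply, Function.iterate_succ_apply,
      Function.iterate_succ_apply, map_mul, ih]

theorem sig_iter_inv (σ : G →* G) (n : ℕ) (x : G) :
    (σ^[n]) (x⁻¹) = ((σ^[n]) x)⁻¹ := by
  induction n generalizing x with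
  | zero => simp
  | succ n ih => rw [Function.iterate_succ_apply, Function.iterate_succ_apply, map_inv, ih]

theorem sig_iter_one (σ : G →* G) (n : ℕ) : (σ^[n]) (1 : G) = 1 := by
  induction n with
  | zero => simp
  | succ n ih => rw [Function.iterate_succ_apply, map_one, ih]

/-- the difference map of `σ ^ m` -/
def Dm (σ : G →* G) (m : ℕ) (g : G) : G := g⁻¹ * (σ^[m]) g

theorem Dm_comm (σ : G →* G) (m r k : ℕ) (g : G) :
    ((Dm σ m)^[k]) ((σ^[r]) g) = (σ^[r]) (((Dm σ m)^[k]) g) := by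
  induction k generalizing g with
  | zero => rfl
  | succ k ih =>
    rw [Function.iterate_succ_apply, Function.iterate_succ_apply, ← ih]
    congr 1
    rw [Dm, Dm, sig_iter_mul, sig_iter_inv, ← Function.iterate_add_apply,
      ← Function.iterate_add_apply, add_comm]

theorem Dm_mul (σ : G →* G) (m : ℕ) (g : G) : (σ^[m]) g = g * Dm σ m g := by
  rw [Dm, mul_inv_cancel_left]

/-- the operators -/
noncomputable def opU {K : Type} [NormedAddCommGroup K] [InnerProductSpace ℂ K] [CompleteSpace K]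
    (π : U →⋆ₐ[ℂ] (K →L[ℂ] K)) (x : U) (hx : x ∈ unitary U) : K ≃ₗᵢ[ℂ] K :=
  Unitary.linearIsometryEquiv ⟨π x, Unitary.map_mem π hx⟩

theorem opU_apply {K : Type} [NormedAddCommGroup K] [InnerProductSpace ℂ K] [CompleteSpace K]
    (π : U →⋆ₐ[ℂ] (K →L[ℂ] K)) (x : U) (hx : x ∈ unitary U) (ξ : K) : opU π x hx ξ = π x ξ := rfl

/-- **The main step.** -/
theorem orbit_vec (hu : Tw u) {α : U →⋆ₐ[ℂ] U} {σ : G →* G}
    (hα : ∀ g, ∃ c : ℂ, ‖c‖ = 1 ∧ α (u g) = c • u (σ g))
    {K : Type} [NormedAddCommGroup K] [InnerProductSpace ℂ K] [CompleteSpace K]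
    (π : U →⋆ₐ[ℂ] (K →L[ℂ] K)) (g : G) {m : ℕ} (hm : 0 < m) (k : ℕ)
    (hk : ((Dm σ m)^[k]) g = 1) (τ : ℝ) {r : ℕ} (hr : r < m) (ξ : K) :
    Tendsto (fun N : ℕ => (N : ℂ)⁻¹ • ∑ j ∈ range N, mob (m * j + r) •
      (ee ((m * j + r : ℕ) * τ) • π ((α^[m * j + r]) (u g)) ξ)) atTop (𝓝 0) := by
  set h : ℕ → G := fun i => ((Dm σ m)^[i]) ((σ^[r]) g) with hh
  have hhk : h k = 1 := by rw [hh]; simp only; rw [Dm_comm, hk, sig_iter_one]
  have hcomm : ∀ i j, CommS (opU π (u (h i)) (hu.unit _)) (opU π (u (h j)) (hu.unit _)) := by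
    intro i j
    obtain ⟨c, hc, h1⟩ := hu.comm (h i) (h j)
    refine ⟨c, hc, fun x => ?_⟩
    simp only [opU_apply]
    rw [← mul_apply_eq_comp, ← mul_apply_eq_comp, ← map_mul, h1, map_smul,
      map_mul, smul_apply]
  obtain ⟨A, iA, V, B, a, hV, ha, -⟩ :=
    exists_biproj (fun i => opU π (u (h i)) (hu.unit _)) (k + 1) fun i _ j _ => hcomm i j
  -- the step
  have hstep : ∀ i, ∃ θ : ℝ, (α^[m]) (u (h i)) = ee θ • (u (h i) * u (h (i + 1))) := by
    intro i
    obtain ⟨c, hc, h1⟩ := cover_iter hα m (h i)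
    obtain ⟨c', hc', h2⟩ := hu.mul (h i) (h (i + 1))
    have e : (σ^[m]) (h i) = h i * h (i + 1) := by
      rw [Dm_mul, hh]
      simp only [Function.iterate_succ_apply']
    obtain ⟨θ, hθ⟩ := exists_ee (z := c * c') (by rw [norm_mul, hc, hc', one_mul])
    refine ⟨θ, ?_⟩
    rw [h1, e, h2, smul_smul, hθ]
  choose θ hθ using hstep
  obtain ⟨R, hR, hX⟩ := orbit_formula hV k (fun i n x => π ((α^[m * n]) (u (h i))) x) a θ
    (fun i hi x => by
      rw [mul_zero, Function.iterate_zero, id, ha i (by omega), opU_apply])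
    (fun i _ n x => by
      rw [Nat.mul_succ, Function.iterate_add_apply, hθ, iter_smul, iter_mul, map_smul, map_mul]
      rfl)
    (fun n x => by
      obtain ⟨c, hc, h1⟩ := hu.one
      rw [ha k (by omega), opU_apply, hhk, h1, iter_smul, iter_one])
  obtain ⟨c, hc, h1⟩ := cover_iter hα r g
  obtain ⟨τ', rfl⟩ := exists_ee hc
  have h2 := main_poly (r := r) hV hm hr k a (fun j => R j + (((m : ℝ) * j + r) * τ + τ'))
    (hR.add ((((IsPF.const (m : ℝ)).mul IsPF.id).add (IsPF.const (r : ℝ))).mul (IsPF.const τ)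
      |>.add (IsPF.const τ'))) ξ
  refine h2.congr fun N => ?_
  rw [TN]
  congr 1
  refine Finset.sum_congr rfl fun j _ => ?_
  congr 1
  rw [Function.iterate_add_apply, h1, iter_smul, map_smul, smul_apply]
  have h3 := hX j ξ
  rw [show h 0 = (σ^[r]) g from rfl] at h3
  rw [h3, smul_smul, smul_smul, ← ee_add, ← ee_add, LinearIsometryEquiv.coe_toLinearIsometry]
  congr 2
  push_cast
  ring

end cstar

end Pool.Agent.TH261.AB
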