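import Pool.Agent.TH261.AB.Gen

/-! Finitely many unitaries which commute up to scalars generate a projective representation of an
abelian group with a bilinear cocycle. -/

set_option autoImplicit false
set_option linter.unusedSectionVars false

open Finset Filter Topology

namespace Pool.Agent.TH261.AB

open Pool.Agent.Helper188.NCM

variable {H : Type*} [NormedAddCommGroup H] [InnerProductSpace ℂ H]

theorem mulA (f g : H ≃ₗᵢ[ℂ] H) (x : H) : (f * g) x = f (g x) := rfl

/-- `W` and `U` commute up to a scalar of modulus one -/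
def CommS (W U : H ≃ₗᵢ[ℂ] H) : Prop := ∃ c : ℂ, ‖c‖ = 1 ∧ ∀ x, W (U x) = c • U (W x)

theorem nat_move {W U : H ≃ₗᵢ[ℂ] H} {θ : ℝ} (h : ∀ x, W (U x) = ee θ • U (W x)) (n : ℕ) (x : H) :
    W ((U ^ n) x) = ee (n * θ) • (U ^ n) (W x) := by
  induction n generalizing x with
  | zero => simp [ee_zero]
  | succ n ih =>
    rw [pow_succ, mulA, mulA, ih, h,
      LinearIsometryEquiv.map_smul, smul_smul, ← ee_add]
    congr 2
    push_cast; ring

theorem inv_move {W U : H ≃ₗᵢ[ℂ] H} {θ : ℝ} (h : ∀ x, W (U x) = ee θ • U (W x)) (x : H) :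
    W (U⁻¹ x) = ee (-θ) • U⁻¹ (W x) := by
  have h1 := h (U⁻¹ x)
  have e : ∀ y, U (U⁻¹ y) = y := fun y => by
    rw [← mulA, mul_inv_cancel]; rfl
  have e' : ∀ y, U⁻¹ (U y) = y := fun y => by
    rw [← mulA, inv_mul_cancel]; rfl
  rw [e] at h1
  rw [h1, LinearIsometryEquiv.map_smul, e', smul_smul, ee_neg_mul, one_smul]

theorem zpow_move {W U : H ≃ₗᵢ[ℂ] H} {θ : ℝ} (h : ∀ x, W (U x) = ee θ • U (W x)) (n : ℤ) (x : H) :
    W ((U ^ n) x) = ee (n * θ) • (U ^ n) (W x) := by
  obtain ⟨n, rfl | rfl⟩ := n.eq_nat_or_neg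
  · rw [zpow_natCast, nat_move h]
    norm_cast
  · rw [zpow_neg, zpow_natCast, ← inv_pow]
    rw [nat_move (inv_move h)]
    congr 2
    push_cast; ring

/-- the same with the roles exchanged -/
theorem zpow_move' {W U : H ≃ₗᵢ[ℂ] H} {θ : ℝ} (h : ∀ x, W (U x) = ee θ • U (W x)) (n : ℤ) (x : H) :
    (W ^ n) (U x) = ee (n * θ) • U ((W ^ n) x) := by
  have h' : ∀ x, U (W x) = ee (-θ) • W (U x) := fun x => by
    rw [h, smul_smul, ee_neg_mul, one_smul]
  have := zpow_move h' n x
  rw [this, smul_smul, ← ee_add, show (n : ℝ) * θ + n * -θ = 0 by ring, ee_zero, one_smul]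

/-- **Existence of the projective representation.** -/
theorem exists_biproj (U : ℕ → (H ≃ₗᵢ[ℂ] H)) : ∀ r : ℕ, (∀ i < r, ∀ j < r, CommS (U i) (U j)) →
    ∃ (A : Type) (_ : AddCommGroup A) (V : A → (H ≃ₗᵢ[ℂ] H)) (B : A →+ A →+ ℝ) (a : ℕ → A),
      BiProj (fun x => (V x).toLinearIsometry) B ∧ (∀ i < r, V (a i) = U i) ∧
      ∀ W : H ≃ₗᵢ[ℂ] H, (∀ i < r, CommS W (U i)) →
        ∃ χ : A →+ ℝ, ∀ b x, W (V b x) = ee (χ b) • V b (W x) := by
  intro r
  induction r with
  | zero =>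
    intro _
    refine ⟨PUnit, inferInstance, fun _ => 1, 0, fun _ => 0, ?_, ?_, ?_⟩
    · intro a b x
      simp [ee_zero]
    · intro i hi; omega
    · intro W _
      exact ⟨0, fun b x => by simp [ee_zero]⟩
  | succ r ih =>
    intro hU
    obtain ⟨A, iA, V, B, a, hV, ha, hW⟩ := ih fun i hi j hj => hU i (by omega) j (by omega)
    obtain ⟨χ, hχ⟩ := hW (U r) fun i hi => hU r (by omega) i (by omega)
    set V₁ : A × ℤ → (H ≃ₗᵢ[ℂ] H) := fun p => V p.1 * (U r) ^ p.2 with hV₁
    set B₁ : A × ℤ →+ A × ℤ →+ ℝ := AddMonoidHom.mk' (fun p => AddMonoidHom.mk'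
      (fun q => B p.1 q.1 + p.2 * χ q.1) (fun q q' => by
        simp only [Prod.fst_add, map_add]; ring)) (fun p p' => by
        ext q
        · simp only [Prod.fst_add, Prod.snd_add, map_add, AddMonoidHom.add_apply,
            AddMonoidHom.mk'_apply]
          push_cast; ring) with hB₁
    have hV0 : ∀ x, V 0 x = x := fun x => BiProj.zero hV x
    refine ⟨A × ℤ, inferInstance, V₁, B₁, fun i => if i < r then (a i, 0) else (0, 1), ?_, ?_, ?_⟩
    · rintro ⟨x, s⟩ ⟨y, t⟩ ξ
      have h1 : ((U r) ^ s) (V y (((U r) ^ t) ξ)) =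
          ee (s * χ y) • V y (((U r) ^ s) (((U r) ^ t) ξ)) :=
        zpow_move' (hχ y) s _
      have h2 := hV x y ((((U r) ^ s) (((U r) ^ t) ξ)))
      simp only [LinearIsometryEquiv.coe_toLinearIsometry] at h2 ⊢
      simp only [hV₁, hB₁, mulA, AddMonoidHom.mk'_apply, Prod.mk_add_mk]
      rw [h1, LinearIsometryEquiv.map_smul, h2, smul_smul, ← ee_add, zpow_add,
        mulA]
      congr 2
      ring
    · intro i hi
      dsimp only
      split_ifs with h
      · simp only [hV₁, zpow_zero, mul_one]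
        exact ha i h
      · obtain rfl : i = r := by omega
        ext x
        simp only [hV₁, zpow_one, mulA]
        exact hV0 _
    · intro W hWc
      obtain ⟨χ', hχ'⟩ := hW W fun i hi => hWc i (by omega)
      obtain ⟨c, hc, hcW⟩ := hWc r (by omega)
      obtain ⟨θ, rfl⟩ := exists_ee hc
      refine ⟨AddMonoidHom.mk' (fun p => χ' p.1 + p.2 * θ) (fun p q => by
        simp only [Prod.fst_add, Prod.snd_add, map_add]; push_cast; ring), ?_⟩
      rintro ⟨x, s⟩ ξ
      simp only [hV₁, mulA, AddMonoidHom.mk'_apply]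
      rw [hχ', zpow_move hcW, LinearIsometryEquiv.map_smul, smul_smul, ← ee_add]

end Pool.Agent.TH261.AB
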