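import Pool.Agent.W761.Gauss.Semi

/-! Van der Corput's inequality for averages in a Hilbert space. -/

set_option autoImplicit false

open Finset Filter Topology

namespace Pool.Agent.TH261.AB

open Pool.Agent.W761.Gauss

variable {H : Type*} [NormedAddCommGroup H] [InnerProductSpace ℂ H]

theorem shiftA1 {g : ℕ → ℂ} {C : ℝ} (hg : ∀ n, ‖g n‖ ≤ C) (N h : ℕ) (hN : 1 ≤ N) :
    ‖A1 (fun n => g (n + h)) N‖ ≤ ‖A1 g N‖ + 2 * h * C / N := by
  have hN0 : (0 : ℝ) < N := by exact_mod_cast hN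
  have e : ∑ n ∈ range N, g (n + h) - ∑ n ∈ range N, g n =
      ∑ n ∈ range h, g (N + n) - ∑ n ∈ range h, g n := by
    have e1 : ∑ n ∈ range (N + h), g n = ∑ n ∈ range N, g n +
        ∑ n ∈ range h, g (N + n) := Finset.sum_range_add _ _ _
    have e2 : ∑ n ∈ range (N + h), g n = ∑ n ∈ range h, g n +
        ∑ n ∈ range N, g (n + h) := by
      rw [add_comm N h, Finset.sum_range_add]
      congr 1
      exact Finset.sum_congr rfl fun n _ => by rw [add_comm]
    linear_combination e1 - e2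
  have b1 : ‖∑ n ∈ range h, g n‖ ≤ h * C := by
    refine (norm_sum_le _ _).trans ?_
    refine (Finset.sum_le_sum fun n _ => hg n).trans ?_
    rw [Finset.sum_const, Finset.card_range, nsmul_eq_mul]
  have b2 : ‖∑ n ∈ range h, g (N + n)‖ ≤ h * C := by
    refine (norm_sum_le _ _).trans ?_
    refine (Finset.sum_le_sum fun n _ => hg _).trans ?_
    rw [Finset.sum_const, Finset.card_range, nsmul_eq_mul]
  have e3 : ∑ n ∈ range N, g (n + h) = ∑ n ∈ range N, g n +
      (∑ n ∈ range h, g (N + n) - ∑ n ∈ range h, g n) := by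
    linear_combination e
  have e4 : ‖∑ n ∈ range N, g (n + h)‖ ≤ ‖∑ n ∈ range N, g n‖ + 2 * h * C := by
    rw [e3]
    have := norm_add_le (∑ n ∈ range N, g n) (∑ n ∈ range h, g (N + n) - ∑ n ∈ range h, g n)
    have := norm_sub_le (∑ n ∈ range h, g (N + n)) (∑ n ∈ range h, g n)
    linarith
  unfold A1
  rw [norm_mul, norm_mul, norm_inv, Complex.norm_natCast]
  calc (N : ℝ)⁻¹ * ‖∑ n ∈ range N, g (n + h)‖ ≤ (N : ℝ)⁻¹ * (‖∑ n ∈ range N, g n‖ + 2 * h * C) := by
        gcongr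
    _ = _ := by ring

theorem sum_dist_le (b : ℕ → ℝ) (hb : ∀ h, 0 ≤ b h) (M h : ℕ) (hh : h < M) :
    ∑ k ∈ range M, b (if h ≤ k then k - h else h - k) ≤ 2 * ∑ d ∈ range M, b d := by
  have e : ∑ k ∈ range M, b (if h ≤ k then k - h else h - k) =
      ∑ k ∈ (range M).filter (fun k => h ≤ k), b (k - h) +
      ∑ k ∈ (range M).filter (fun k => ¬ h ≤ k), b (h - k) := by
    rw [← Finset.sum_filter_add_sum_filter_not (range M) (fun k => h ≤ k)]
    congr 1
    · refine Finset.sum_congr rfl fun k hk => ?_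
      rw [if_pos (Finset.mem_filter.1 hk).2]
    · refine Finset.sum_congr rfl fun k hk => ?_
      rw [if_neg (Finset.mem_filter.1 hk).2]
  have a1 : ∑ k ∈ (range M).filter (fun k => h ≤ k), b (k - h) ≤ ∑ d ∈ range M, b d := by
    have : ∑ k ∈ (range M).filter (fun k => h ≤ k), b (k - h) =
        ∑ d ∈ ((range M).filter (fun k => h ≤ k)).image (fun k => k - h), b d := by
      rw [Finset.sum_image]
      intro x hx y hy hxy
      have h1 := (Finset.mem_filter.1 hx).2
      have h2 := (Finset.mem_filter.1 hy).2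
      simp only at hxy
      omega
    rw [this]
    refine Finset.sum_le_sum_of_subset_of_nonneg ?_ (fun _ _ _ => hb _)
    intro d hd
    obtain ⟨k, hk, rfl⟩ := Finset.mem_image.1 hd
    have := Finset.mem_range.1 (Finset.mem_filter.1 hk).1
    exact Finset.mem_range.2 (by omega)
  have a2 : ∑ k ∈ (range M).filter (fun k => ¬ h ≤ k), b (h - k) ≤ ∑ d ∈ range M, b d := by
    have : ∑ k ∈ (range M).filter (fun k => ¬ h ≤ k), b (h - k) =
        ∑ d ∈ ((range M).filter (fun k => ¬ h ≤ k)).image (fun k => h - k), b d := by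
      rw [Finset.sum_image]
      intro x hx y hy hxy
      have h1 := (Finset.mem_filter.1 hx).2
      have h2 := (Finset.mem_filter.1 hy).2
      simp only at hxy
      omega
    rw [this]
    refine Finset.sum_le_sum_of_subset_of_nonneg ?_ (fun _ _ _ => hb _)
    intro d hd
    obtain ⟨k, hk, rfl⟩ := Finset.mem_image.1 hd
    exact Finset.mem_range.2 (by omega)
  rw [e]
  linarith

theorem vdcH {F : ℕ → H} {C : ℝ} (hC : 0 ≤ C) (hF : ∀ n, ‖F n‖ ≤ C) (b : ℕ → ℝ)
    (hb0 : C ^ 2 ≤ b 0) (hbn : ∀ h, 0 ≤ b h)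
    (hb : ∀ h, 1 ≤ h → ∀ ε : ℝ, 0 < ε →
      ∀ᶠ N : ℕ in atTop, ‖A1 (fun n => inner ℂ (F n) (F (n + h))) N‖ ≤ b h + ε)
    (hM : ∀ ε : ℝ, 0 < ε → ∃ M : ℕ, 1 ≤ M ∧ (M : ℝ)⁻¹ * ∑ h ∈ range M, b h ≤ ε) :
    Tendsto (fun N : ℕ => (N : ℂ)⁻¹ • ∑ n ∈ range N, F n) atTop (𝓝 0) := by
  rw [tendsto_zero_iff_norm_tendsto_zero, Metric.tendsto_atTop]
  intro ε hε
  obtain ⟨M, hM1, hMb⟩ := hM (ε ^ 2 / 16) (by positivity)
  have hM0 : (0 : ℝ) < M := by exact_mod_cast hM1
  set δ : ℝ := ε ^ 2 / 16 with hδ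
  have hδ0 : 0 < δ := by positivity
  -- all the correlations
  have hall : ∀ᶠ N : ℕ in atTop, ∀ h ∈ range M, ∀ k ∈ range M,
      ‖A1 (fun n => inner ℂ (F (n + h)) (F (n + k))) N‖ ≤ b (if h ≤ k then k - h else h - k) + δ := by
    rw [Filter.eventually_all_finset]
    intro h hh
    rw [Filter.eventually_all_finset]
    intro k hk
    have key : ∀ h k : ℕ, h < k → ∀ᶠ N : ℕ in atTop,
        ‖A1 (fun n => inner ℂ (F (n + h)) (F (n + k))) N‖ ≤ b (k - h) + δ := by
      intro h k hlt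
      obtain ⟨N1, hN1⟩ := exists_nat_ge (4 * h * C ^ 2 / δ)
      filter_upwards [hb (k - h) (by omega) (δ / 2) (by positivity),
        eventually_ge_atTop (max 1 N1)] with N hN hNN
      have hN1' : 1 ≤ N := (le_max_left _ _).trans hNN
      have hN0 : (0 : ℝ) < N := by exact_mod_cast hN1'
      have hN2 : 4 * h * C ^ 2 / δ ≤ N := hN1.trans (by exact_mod_cast (le_max_right _ _).trans hNN)
      have h2 := shiftA1 (g := fun n => inner ℂ (F n) (F (n + (k - h)))) (C := C ^ 2) (fun n => by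
        refine (norm_inner_le_norm _ _).trans ?_
        rw [pow_two]
        exact mul_le_mul (hF _) (hF _) (norm_nonneg _) hC) N h hN1'
      have e : (fun n => inner ℂ (F (n + h)) (F (n + h + (k - h)))) =
          (fun n => inner ℂ (F (n + h)) (F (n + k))) := by
        funext n
        rw [show n + h + (k - h) = n + k by omega]
      rw [e] at h2
      have h3 : 2 * h * C ^ 2 / N ≤ δ / 2 := by
        rw [div_le_iff₀ hN0]
        rw [div_le_iff₀ hδ0] at hN2
        nlinarith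
      linarith
    rcases lt_trichotomy h k with hlt | heq | hgt
    · rw [if_pos hlt.le]
      exact key h k hlt
    · subst heq
      rw [if_pos le_rfl, Nat.sub_self]
      refine Filter.Eventually.of_forall fun N => ?_
      refine (A1_bound (C := C ^ 2) (by positivity) (fun n => ?_) N).trans (by linarith)
      refine (norm_inner_le_norm _ _).trans ?_
      rw [pow_two]
      exact mul_le_mul (hF _) (hF _) (norm_nonneg _) hC
    · rw [if_neg (by omega)]
      refine (key k h hgt).mono fun N hN => le_trans (le_of_eq ?_) hN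
      unfold A1
      rw [norm_mul, norm_mul, ← RCLike.norm_conj (∑ n ∈ range N, inner ℂ (F (n + h)) (F (n + k))),
        map_sum]
      congr 2
      exact Finset.sum_congr rfl fun n _ => by rw [inner_conj_symm]
  obtain ⟨N1, hN1⟩ := eventually_atTop.1 hall
  obtain ⟨N2, hN2⟩ := exists_nat_ge (8 * M * C / ε)
  refine ⟨max 1 (max N1 N2), fun N hN => ?_⟩
  have hN1' : 1 ≤ N := (le_max_left _ _).trans hN
  have hN0 : (0 : ℝ) < N := by exact_mod_cast hN1'
  have h1 := hN1 N (((le_max_left _ _).trans (le_max_right _ _)).trans hN)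
  have h2 : 8 * M * C / ε ≤ N := hN2.trans
    (by exact_mod_cast ((le_max_right _ _).trans (le_max_right _ _)).trans hN)
  have h3 := vdc_ineq hC hF hM1 hN1'
  have h4 := vdc_expand F M N
  have h5 : (N : ℝ)⁻¹ * ∑ n ∈ range N, ‖(M : ℂ)⁻¹ • ∑ h ∈ range M, F (n + h)‖ ^ 2 ≤ 3 * δ := by
    have h6 : (N : ℝ)⁻¹ * ∑ n ∈ range N, ‖(M : ℂ)⁻¹ • ∑ h ∈ range M, F (n + h)‖ ^ 2 =
        ‖(((N : ℝ)⁻¹ * ∑ n ∈ range N, ‖(M : ℂ)⁻¹ • ∑ h ∈ range M, F (n + h)‖ ^ 2 : ℝ) : ℂ)‖ := by
      rw [Complex.norm_real, Real.norm_eq_abs, abs_of_nonneg (by positivity)]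
    rw [h6, h4, norm_mul, norm_pow, norm_inv, Complex.norm_natCast]
    have h7 : ‖∑ h ∈ range M, ∑ k ∈ range M, A1 (fun n => inner ℂ (F (n + h)) (F (n + k))) N‖ ≤
        M * (2 * ∑ d ∈ range M, b d + M * δ) := by
      refine (norm_sum_le _ _).trans ?_
      have h8 : ∀ h ∈ range M, ‖∑ k ∈ range M, A1 (fun n => inner ℂ (F (n + h)) (F (n + k))) N‖ ≤
          2 * ∑ d ∈ range M, b d + M * δ := by
        intro h hh
        refine (norm_sum_le _ _).trans ((Finset.sum_le_sum fun k hk => h1 h hh k hk).trans ?_)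
        rw [Finset.sum_add_distrib, Finset.sum_const, Finset.card_range, nsmul_eq_mul]
        have := sum_dist_le b hbn M h (Finset.mem_range.1 hh)
        linarith
      refine (Finset.sum_le_sum h8).trans ?_
      rw [Finset.sum_const, Finset.card_range, nsmul_eq_mul]
    calc ((M : ℝ)⁻¹) ^ 2 * ‖_‖ ≤ ((M : ℝ)⁻¹) ^ 2 * (M * (2 * ∑ d ∈ range M, b d + M * δ)) :=
          mul_le_mul_of_nonneg_left h7 (by positivity)
      _ = 2 * ((M : ℝ)⁻¹ * ∑ d ∈ range M, b d) + δ := by
          field_simp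
      _ ≤ 3 * δ := by linarith
  have h9 : Real.sqrt ((N : ℝ)⁻¹ * ∑ n ∈ range N, ‖(M : ℂ)⁻¹ • ∑ h ∈ range M, F (n + h)‖ ^ 2) ≤
      ε / 2 := by
    refine (Real.sqrt_le_sqrt h5).trans ?_
    rw [Real.sqrt_le_left (by positivity), hδ]
    nlinarith [sq_nonneg ε]
  have h10 : 2 * M * C / N ≤ ε / 4 := by
    rw [div_le_iff₀ hN0]
    rw [div_le_iff₀ hε] at h2
    nlinarith
  rw [Real.dist_eq, sub_zero, abs_of_nonneg (norm_nonneg _)]
  linarith

end Pool.Agent.TH261.AB
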